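import Pool.Agent.U150.XG.Mq
import Pool.Agent.Y682.Stab
import Pool.Agent.Y682.KG
import Pool.Agent.TH841.NF.Hom
import Pool.Agent.Y655.XT.Shavc
import Pool.Agent.Y667.BKP.Main

/-!
# The 2-primary part of `Ш` over the multiquadratic fields
-/

set_option autoImplicit false

attribute [-instance] DivisionRing.toRatAlgebra

open WeierstrassCurve

open scoped Classical

namespace Pool.Agent.U150.XG.ShaK

open Pool.Agent.TH841.NF (Sc thS thS_ker)
open Pool.Agent.Y682 (gc MP fg_MP gc_isT)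

/-- no 2-torsion: from the number field `ℚ` to `ℚ` (helper80, `U80/MQ/ShaM`) -/
theorem sh_of_nf {E : WeierstrassCurve ℚ}
    (h : ∀ x : Pool.Agent.TH841.NF.D.Sha E, 2 • x = 0 → x = 0) :
    ∀ x : Pool.Agent.TH841.SH.D.Sha E, 2 • x = 0 → x = 0 := by
  intro x hx
  let _ : Algebra ℚ ℚ := Algebra.id ℚ
  have hW : Sc (algebraMap ℚ ℚ) 1 E E := by
    refine ⟨one_ne_zero, ?_, ?_, ?_, ?_, ?_⟩ <;> simp
  obtain ⟨e⟩ := Pool.Agent.Y682.exists_e ℚ
  have h1 := h (Pool.Agent.Y682.rsS hW e x) (by rw [← map_nsmul, hx, map_zero])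
  have h2 := Pool.Agent.Y682.coS_rsS hW e x
  rw [h1, map_zero, Module.finrank_self, one_smul] at h2
  exact h2.symm

lemma no_two_pow {A : Type} [AddCommGroup A] (h : ∀ x : A, 2 • x = 0 → x = 0) (k : ℕ) :
    ∀ x : A, (2 ^ k : ℕ) • x = 0 → x = 0 := by
  induction k with
  | zero =>
    intro x hx
    rwa [pow_zero, one_smul] at hx
  | succ k ih =>
    intro x hx
    refine ih x (h _ ?_)
    rw [smul_smul, mul_comm, ← pow_succ]
    exact hx

/-- `Ш[2^∞]` over the multiquadratic field (after helper80, `U80/GT/Sha`) -/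
theorem sha_K {S : Finset ℤ} (hS : ∀ d ∈ S, d ≠ 0) (A B : ℤ)
    (h : ∀ T ⊆ S, ∀ x : Pool.Agent.TH841.NF.D.Sha
      (gc (A * ∏ d ∈ T, d) (B * (∏ d ∈ T, d) ^ 2) ℚ), 2 • x = 0 → x = 0)
    (K : Type) [Field K] [NumberField K] [Algebra ℚ K] (r : ℤ → K)
    (hr : ∀ d ∈ S, r d ^ 2 = (d : K))
    (hgen : IntermediateField.adjoin ℚ (r '' (S : Set ℤ)) = ⊤) (k : ℕ)
    (x : Pool.Agent.TH841.NF.D.Sha (gc A B K)) (hx : (2 ^ k : ℕ) • x = 0) :
    (2 ^ S.card : ℕ) • x = 0 := by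
  obtain ⟨e⟩ := Pool.Agent.Y682.exists_e K
  set ε : Fin S.card ≃ S := S.equivFin.symm with hε
  have hd : ∀ i : Fin S.card, (((ε i : ℤ)) : ℚ) ≠ 0 := by
    intro i
    exact_mod_cast hS _ (ε i).2
  have hr' : ∀ i : Fin S.card, (fun i => r (ε i)) i ^ 2 = algebraMap ℚ K (((ε i : ℤ)) : ℚ) := by
    intro i
    show r (ε i) ^ 2 = _
    rw [hr _ (ε i).2, map_intCast]
  have hgen' : IntermediateField.adjoin ℚ (Set.range fun i => r (ε i)) = ⊤ := by
    rw [← hgen]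
    congr 1
    ext z
    constructor
    · rintro ⟨i, rfl⟩
      exact ⟨ε i, (ε i).2, rfl⟩
    · rintro ⟨d, hd', rfl⟩
      exact ⟨ε.symm ⟨d, hd'⟩, by simp⟩
  have hW : Sc (algebraMap ℚ K) 1 (gc A B ℚ) (gc A B K) := by
    refine ⟨one_ne_zero, ?_, ?_, ?_, ?_, ?_⟩ <;> simp [gc]
  refine thS_ker hW rfl rfl e hr' hd hgen' x fun T => ?_
  set U : Finset ℤ := T.image fun i => (ε i : ℤ) with hU
  have hUS : U ⊆ S := by
    intro d hd'
    obtain ⟨i, -, rfl⟩ := Finset.mem_image.1 hd'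
    exact (ε i).2
  have hprod : (∏ i ∈ T, (((ε i : ℤ)) : ℚ)) = ((∏ d ∈ U, d : ℤ) : ℚ) := by
    rw [hU, Finset.prod_image fun i _ j _ hij => ε.injective (Subtype.ext hij), Int.cast_prod]
  have h1 : ∀ x : Pool.Agent.TH841.NF.D.Sha (Pool.Agent.TH841.NF.tw
      (∏ i ∈ T, (((ε i : ℤ)) : ℚ)) (gc A B ℚ)), 2 • x = 0 → x = 0 := by
    have e1 : Pool.Agent.TH841.NF.tw (∏ i ∈ T, (((ε i : ℤ)) : ℚ)) (gc A B ℚ) =
        gc (A * ∏ d ∈ U, d) (B * (∏ d ∈ U, d) ^ 2) ℚ := by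
      rw [hprod]
      unfold Pool.Agent.TH841.NF.tw gc
      ext
      · rfl
      · simp only
        push_cast
        ring
      · rfl
      · simp only
        push_cast
        ring
      · simp only
        ring
    rw [e1]
    exact h U hUS
  exact no_two_pow (sh_of_nf h1) k _ (by rw [← map_nsmul, hx, map_zero])

end Pool.Agent.U150.XG.ShaK
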