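import Pool.Agent.Results.MP_788af2_nt.AverageRankPrimeTwists
import Pool.Agent.Results.MP_81dc49_nt.RanksOverMultiquadraticFields

/-!
# The successive prime twists over multiquadratic fields
-/

set_option autoImplicit false

open scoped Classical ENNReal

namespace Pool.Agent.U150.XG.Mq

open Pool.Agent.TH841.NF.D (rk Sha)
open Filter Matrix Finset
open Pool.Agent.Results.MP_6073f3_nt.SuccessivePrimeTwists (Res Inert Member Given lowerMean
  upperMean indicator Density split splitSteps chain c low_of up_of dens_of chain_eq)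
open Pool.Agent.Results.MP_788af2_nt.AverageRankPrimeTwists (chainMean chainMean_eq)
open Pool.Agent.U115.GE (cork Class)
open Pool.Agent.U150.XG (En MM exists_en ns mean)
open Pool.Agent.U687.Q2 (ph UU TT mu)

variable {a b : ℤ}

/-- a property of the numbers with corank at most `d` -/
theorem low_sum (hb : ¬ IsSquare b) (hc : ¬ IsSquare (a ^ 2 - 4 * b)) {q : ℕ → ℕ}
    (hq : Given a b q) (Pr : ℕ → Prop) (d : ℕ)
    (hT : ∀ N, Class a b N → cork a b N ≤ d → Pr N) (k : ℕ)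
    {D : ℕ} (hD : Member a b D) (hR : Res a b (D * ∏ i ∈ Finset.range (k + 1), q i)) :
    ENNReal.ofReal (∑ r ∈ Finset.range (d + 1), chain a b q k D r) ≤
      lowerMean a b q (indicator Pr) (k + 1) D := by
  obtain ⟨P, h⟩ := exists_en (Pool.Agent.U115.GE.Res a b) D
  have hce := chain_eq q k h
  have h1 := low_of hb hc hq (indicator Pr) (fun r => if r < d + 1 then 1 else 0) (fun r => by
      split_ifs
      · exact zero_le_one
      · exact le_rfl) (fun N hN => by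
      unfold indicator
      by_cases h0 : cork a b N < d + 1
      · rw [if_pos h0, if_pos (hT N hN (by omega)), ENNReal.ofReal_one]
      · rw [if_neg h0, ENNReal.ofReal_zero]
        exact zero_le) k hD hR h
  refine le_trans (ENNReal.ofReal_le_ofReal ?_) h1
  rw [hce, Pool.Agent.U150.XG.ph_law _ _ _ (max (d + 1)
    ((D.primeFactors.filter (Pool.Agent.U115.GE.Res a b)).card +
      ns (fun i => Pool.Agent.U115.GE.Res a b (q i)) k + 1)) (by
        have := le_max_right (d + 1)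
          ((D.primeFactors.filter (Pool.Agent.U115.GE.Res a b)).card +
            ns (fun i => Pool.Agent.U115.GE.Res a b (q i)) k + 1)
        omega)]
  have h2 : ∀ (m : ℕ) (μ : ℕ → ℝ), (∀ r, 0 ≤ μ r) → d + 1 ≤ m →
      ∑ r ∈ Finset.range (d + 1), μ r ≤
      ∑ r ∈ Finset.range m, (if r < d + 1 then (1 : ℝ) else 0) * μ r := by
    intro m μ hμ hm
    have e1 : ∑ r ∈ Finset.range (d + 1), μ r =
        ∑ r ∈ Finset.range (d + 1), (if r < d + 1 then (1 : ℝ) else 0) * μ r :=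
      Finset.sum_congr rfl fun r hr => by rw [if_pos (Finset.mem_range.1 hr), one_mul]
    rw [e1]
    refine Finset.sum_le_sum_of_subset_of_nonneg (Finset.range_mono hm) fun r _ _ => ?_
    refine mul_nonneg ?_ (hμ r)
    split_ifs
    · exact zero_le_one
    · exact le_rfl
  exact h2 _ _ (Pool.Agent.U150.XG.TTn_nonneg (Pool.Agent.U687.Q2.mu_nonneg _) _)
    (le_max_left _ _)

/-- the mean of an affine function -/
theorem ph_aff {n : ℕ} (A : Matrix (Fin n) (Fin n) (ZMod 2)) (t : ℕ) (x y : ℝ) :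
    ph (UU^[t] (fun r => x + y * (r : ℝ))) A = x + y * mean A t := by
  rw [Pool.Agent.U150.XG.ph_law _ A t (n + t + 1) (by omega)]
  unfold mean
  rw [Finset.mul_sum]
  have h1 := Pool.Agent.U150.XG.law_sum A t (n + t + 1) (by omega)
  have h2 : ∀ r ∈ Finset.range (n + t + 1), (x + y * (r : ℝ)) * (TT^[t] (mu A)) r =
      x * (TT^[t] (mu A)) r + y * ((r : ℝ) * (TT^[t] (mu A)) r) := fun r _ => by ring
  rw [Finset.sum_congr rfl h2, Finset.sum_add_distrib, ← Finset.mul_sum, h1, mul_one]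

/-- the upper mean of a function bounded by an affine function of the corank -/
theorem up_aff (hb : ¬ IsSquare b) (hc : ¬ IsSquare (a ^ 2 - 4 * b)) {q : ℕ → ℕ}
    (hq : Given a b q) (T : ℕ → ℝ≥0∞) (x y : ℝ) (hx : 0 ≤ x) (hy : 0 ≤ y)
    (hT : ∀ N, Class a b N → T N ≤ ENNReal.ofReal (x + y * (cork a b N : ℝ))) (k : ℕ)
    {D : ℕ} (hD : Member a b D) (hR : Res a b (D * ∏ i ∈ Finset.range (k + 1), q i)) :
    upperMean a b q T (k + 1) D ≤ ENNReal.ofReal (x + y * chainMean a b q k D) := by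
  obtain ⟨P, h⟩ := exists_en (Pool.Agent.U115.GE.Res a b) D
  have h3 := up_of hb hc hq T (fun r => x + y * (r : ℝ)) (fun r => by positivity) hT k hD hR h
  rwa [ph_aff, ← chainMean_eq q k h] at h3

section

open Pool.Agent.Results.MP_81dc49_nt.RanksOverMultiquadraticFields (E s R₀ twist TrivialTwo twist_inv)
open Pool.Agent.U79.TF (gc_ne)

variable {S : Finset ℤ}

theorem ns_b {M : ℤ} (hb : ¬ IsSquare b) (hM : M ≠ 0) : ¬ IsSquare (b * M ^ 2) := fun h =>
  hb (Pool.Agent.U79.TF.sq_cancel hM h)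

theorem ns_c {M : ℤ} (hc : ¬ IsSquare (a ^ 2 - 4 * b)) (hM : M ≠ 0) :
    ¬ IsSquare ((a * M) ^ 2 - 4 * (b * M ^ 2)) := by
  intro h
  refine hc (Pool.Agent.U79.TF.sq_cancel hM ?_)
  have e : (a ^ 2 - 4 * b) * M ^ 2 = (a * M) ^ 2 - 4 * (b * M ^ 2) := by ring
  rw [e]
  exact h

/-- the coranks of all the twists -/
theorem bd (hb : ¬ IsSquare b) (hc : ¬ IsSquare (a ^ 2 - 4 * b)) (hS : ∀ d ∈ S, d ≠ 0) {N : ℕ}
    (hN : Class (a * ∏ d ∈ S, d) (b * (∏ d ∈ S, d) ^ 2) N) :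
    cork (a * ∏ d ∈ S, d) (b * (∏ d ∈ S, d) ^ 2) N = cork a b N ∧
    (∀ T ⊆ S, s (a * (∏ d ∈ T, d) * N) (b * (∏ d ∈ T, d) ^ 2 * N ^ 2) =
        s (a * ∏ d ∈ T, d) (b * (∏ d ∈ T, d) ^ 2) + 2 * cork a b N ∧
      (s (a * ∏ d ∈ T, d) (b * (∏ d ∈ T, d) ^ 2) = 0 →
        (TrivialTwo (twist a b (∏ d ∈ T, d) N) ↔ cork a b N = 0))) ∧
    ∀ (K : Type) [Field K] [NumberField K] (r : ℤ → K), (∀ d ∈ S, r d ^ 2 = (d : K)) →
      IntermediateField.adjoin ℚ (r '' (S : Set ℤ)) = ⊤ →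
        rk (E a b N K) ≤ R₀ a b S + 2 ^ (S.card + 1) * cork a b N := by
  have hb0 : b ≠ 0 := by
    rintro rfl
    exact hb ⟨0, by norm_num⟩
  have hc0 : a ^ 2 - 4 * b ≠ 0 := by
    intro h
    exact hc ⟨0, by rw [h]; norm_num⟩
  set M : ℤ := ∏ d ∈ S, d with hMdef
  have hM : M ≠ 0 := Finset.prod_ne_zero_iff.2 hS
  have hdv : ∀ T ⊆ S, ∏ d ∈ T, d ∣ M := fun T hT => Finset.prod_dvd_prod_of_subset T S _ hT
  have hT0 : ∀ T ⊆ S, ∏ d ∈ T, d ≠ 0 := fun T hT =>
    Finset.prod_ne_zero_iff.2 fun d hd => hS d (hT hd)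
  refine ⟨Pool.Agent.U79.MO.cork_m (dvd_refl M) hN, fun T hT => ?_, fun K _ _ r hr hK => ?_⟩
  · obtain ⟨u1, u2, u3, u4⟩ := Pool.Agent.U79.MO.two_sided_m hb hc hM (hdv T hT) hN
    obtain ⟨v1, v2, v3, v4⟩ := twist_inv (a := a) (b := b) hb0 hc0 (hT0 T hT) hN.1.ne_zero
    exact ⟨Pool.Agent.U79.MO.sr_m hb hc hM (hdv T hT) hN, fun h => v4.symm.trans (u4 h)⟩
  · have h4 := Pool.Agent.U79.MO.rank_K2 hb0 hc0 hS K r hr hK hN
    rw [← Pool.Agent.U79.TF.rk_short hb0 hc0 hN.1.ne_zero K] at h4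
    exact h4

end

end Pool.Agent.U150.XG.Mq
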