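import Pool.Agent.U150.XG.Law
import Pool.Agent.U115.GE.DensK

/-!
# The classes of the twists of the curves with a rational point of order two
-/

set_option autoImplicit false
set_option linter.unusedSectionVars false

open scoped Classical ENNReal

namespace Pool.Agent.U150.XG

open Finset Matrix Filter Topology
open Pool.Agent.U687.Q2 (cor pt ph)
open Pool.Agent.U115.GE (Res Inert cork spl ine mat thetaG cfg)

/-- the modulus -/
def QQ (a b : ℤ) : ℕ := 8 * (b * (a ^ 2 - 4 * b)).natAbs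

variable {a b : ℤ}

theorem QQ_pos (hb : b ≠ 0) (hc : a ^ 2 - 4 * b ≠ 0) : 0 < QQ a b := by
  unfold QQ
  have := Int.natAbs_pos.2 (mul_ne_zero hb hc)
  omega

theorem res_congr {m n : ℕ} (h : m % QQ a b = n % QQ a b) (hm : Res a b m) : Res a b n := by
  have h8 : m ≡ n [MOD 8] := (show m ≡ n [MOD QQ a b] from h).of_dvd (Dvd.intro _ rfl)
  refine ⟨?_, fun l hl hl2 hlb => ?_⟩
  · have := hm.1
    have h9 : m % 8 = n % 8 := h8
    omega
  · obtain ⟨h1, h2⟩ := hm.2 l hl hl2 hlb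
    have hlQ : l ∣ QQ a b := (Int.natCast_dvd.1 hlb).mul_left 8
    have h3 : m ≡ n [MOD l] := (show m ≡ n [MOD QQ a b] from h).of_dvd hlQ
    have h4 : (m : ZMod l) = (n : ZMod l) := (ZMod.natCast_eq_natCast_iff _ _ _).2 h3
    refine ⟨fun h5 => h1 ?_, ?_⟩
    · rw [← ZMod.natCast_eq_zero_iff, h4, ZMod.natCast_eq_zero_iff]
      exact h5
    · rw [← h4]
      exact h2

theorem res_iff {m n : ℕ} (h : m % QQ a b = n % QQ a b) : Res a b m ↔ Res a b n :=
  ⟨res_congr h, res_congr h.symm⟩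

theorem res_nd {p : ℕ} (hp : p.Prime) (h : Res a b p) : ¬ p ∣ QQ a b := by
  intro h1
  have h8 : p % 8 = 1 := h.1
  rcases (Nat.Prime.dvd_mul hp).1 h1 with h2 | h2
  · have h3 : p ∣ 2 ^ 3 := h2
    have h4 := (Nat.prime_dvd_prime_iff_eq hp Nat.prime_two).1 (hp.dvd_of_dvd_pow h3)
    omega
  · exact (h.2 p hp (by omega) (Int.natCast_dvd.2 h2)).1 dvd_rfl

theorem inert_nd {p : ℕ} (h : Inert a b p) : ¬ p ∣ QQ a b := by
  intro h1
  obtain ⟨hp, h2, h3, h4⟩ := h
  rcases (Nat.Prime.dvd_mul hp).1 h1 with h5 | h5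
  · have h6 : p ∣ 2 ^ 3 := h5
    exact h2 ((Nat.prime_dvd_prime_iff_eq hp Nat.prime_two).1 (hp.dvd_of_dvd_pow h6))
  · have h6 : (p : ℤ) ∣ b * (a ^ 2 - 4 * b) := Int.natCast_dvd.2 h5
    rcases (Nat.prime_iff_prime_int.1 hp).dvd_or_dvd h6 with h7 | h7
    · exact h3 ⟨0, by rw [(ZMod.intCast_zmod_eq_zero_iff_dvd _ _).2 h7, mul_zero]⟩
    · exact h4 ⟨0, by rw [(ZMod.intCast_zmod_eq_zero_iff_dvd _ _).2 h7, mul_zero]⟩

theorem inert_congr (hb : ¬ IsSquare b) (hc : ¬ IsSquare (a ^ 2 - 4 * b)) {p q : ℕ}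
    (hp : p.Prime) (h : p % QQ a b = q % QQ a b) (hq : Inert a b q) : Inert a b p := by
  have hb0 : b ≠ 0 := by
    rintro rfl
    exact hb ⟨0, by norm_num⟩
  have hc0 : a ^ 2 - 4 * b ≠ 0 := by
    intro h
    exact hc ⟨0, by rw [h]; norm_num⟩
  obtain ⟨-, -, h3, -⟩ := Pool.Agent.U643.GE.t_CFG a b hb0 hc0 hb hc
  have h4 := (h3 q).1 hq
  refine (h3 p).2 ⟨hp, ?_⟩
  have h5 : p % (cfg a b).Q = q % (cfg a b).Q := h
  rw [h5]
  exact h4.2

theorem inert_not_res (hb : ¬ IsSquare b) (hc : ¬ IsSquare (a ^ 2 - 4 * b)) {q : ℕ}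
    (hq : Inert a b q) : ¬ Res a b q := by
  have hb0 : b ≠ 0 := by
    rintro rfl
    exact hb ⟨0, by norm_num⟩
  have hc0 : a ^ 2 - 4 * b ≠ 0 := by
    intro h
    exact hc ⟨0, by rw [h]; norm_num⟩
  obtain ⟨h1, h2, h3, -⟩ := Pool.Agent.U643.GE.t_CFG a b hb0 hc0 hb hc
  intro hr
  have h4 := ((h3 q).1 hq).2
  obtain ⟨h5, -, h6⟩ := h1.hB _ h4
  apply h6
  rw [← h2]
  refine (res_iff ?_).1 hr
  show q % QQ a b = q % QQ a b % QQ a b
  rw [Nat.mod_mod]

/-- the state -/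
def Ig (a b : ℤ) (q : ℕ → ℕ) (k D : ℕ) : Prop :=
  Squarefree D ∧ (∀ p ∈ D.primeFactors, Res a b p ∨ Inert a b p) ∧
    Res a b (D * ∏ i ∈ Finset.range k, q i)

theorem dat_ge (hb : ¬ IsSquare b) (hc : ¬ IsSquare (a ^ 2 - 4 * b)) (q : ℕ → ℕ)
    (hq : ∀ i, (q i).Prime ∧ (Res a b (q i) ∨ Inert a b (q i))) (h0 : Inert a b (q 0)) :
    Dat (QQ a b) (Res a b) (fun k l => l % QQ a b = q k % QQ a b) (fun k => Res a b (q k))
      (Ig a b q) := by
  have hb0 : b ≠ 0 := by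
    rintro rfl
    exact hb ⟨0, by norm_num⟩
  have hc0 : a ^ 2 - 4 * b ≠ 0 := by
    intro h
    exact hc ⟨0, by rw [h]; norm_num⟩
  have hnd : ∀ i, ¬ q i ∣ QQ a b := fun i => by
    rcases (hq i).2 with h | h
    · exact res_nd (hq i).1 h
    · exact inert_nd h
  refine ⟨QQ_pos hb0 hc0, fun p _ h => ?_, fun p hp h => res_nd hp h, fun k => ?_,
    fun k p _ h => res_iff h, inert_not_res hb hc h0, fun k D h => h.1.ne_zero, ?_⟩
  · have := h.1
    omega
  · have hcop : (q k).Coprime (QQ a b) := ((hq k).1.coprime_iff_not_dvd).2 (hnd k)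
    refine ⟨fun u => (u : ZMod (QQ a b)) = (q k : ZMod (QQ a b)),
      ⟨ZMod.unitOfCoprime (q k) hcop, ZMod.coe_unitOfCoprime _ _⟩, fun p _ _ u hu => ?_⟩
    show p % QQ a b = q k % QQ a b ↔ (u : ZMod (QQ a b)) = (q k : ZMod (QQ a b))
    rw [hu]
    exact (ZMod.natCast_eq_natCast_iff' _ _ _).symm
  · intro k D l ⟨h1, h2, h3⟩ hl hC hlD
    have hco : D.Coprime l := ((hl.coprime_iff_not_dvd).2 hlD).symm
    refine ⟨(Nat.squarefree_mul hco).2 ⟨h1, hl.prime.squarefree⟩, fun p hp => ?_, ?_⟩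
    · rw [pf_mul h1.ne_zero hl, Finset.mem_insert] at hp
      rcases hp with rfl | hp
      · rcases (hq k).2 with h | h
        · exact Or.inl ((res_iff hC).2 h)
        · exact Or.inr (inert_congr hb hc hl hC h)
      · exact h2 p hp
    · refine res_congr ?_ h3
      rw [Finset.prod_range_succ]
      have e1 : D * ((∏ i ∈ Finset.range k, q i) * q k) =
          (D * ∏ i ∈ Finset.range k, q i) * q k := by ring
      have e2 : D * l * ∏ i ∈ Finset.range k, q i = (D * ∏ i ∈ Finset.range k, q i) * l := by ring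
      rw [e1, e2, Nat.mul_mod, ← hC, ← Nat.mul_mod]

theorem ig_zero {q : ℕ → ℕ} {D : ℕ} (h : Ig a b q 0 D) : Pool.Agent.U115.GE.Class a b D := by
  obtain ⟨h1, h2, h3⟩ := h
  rw [Finset.range_zero, Finset.prod_empty, mul_one] at h3
  refine ⟨h1, h3, fun p hp => ?_⟩
  rcases h2 p hp with h | h
  · exact Or.inl ⟨Nat.prime_of_mem_primeFactors hp, h⟩
  · exact Or.inr h

/-- the enumeration -/
noncomputable def eqs {D n : ℕ} {P : Fin n → ℕ} (h : En (Res a b) D n P) :
    Fin n ≃ {x // x ∈ spl a b D} := h.eq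

/-- the matrices -/
theorem mat_sub {D n : ℕ} {P : Fin n → ℕ} (h : En (Res a b) D n P) :
    MM (thetaG a b) D P = (mat a b D).submatrix (eqs h) (eqs h) := by
  ext i j
  rw [Matrix.submatrix_apply]
  have hR : mat a b D (eqs h i) (eqs h j) =
      if P i = P j then thetaG a b (P i) +
        ∑ q ∈ ine a b D, Pool.Agent.Y698.SG.nq (P i) q +
        ∑ p ∈ (spl a b D).erase (P i), Pool.Agent.Y698.SG.nq (P i) p
      else Pool.Agent.Y698.SG.nq (P i) (P j) := rfl
  rw [hR]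
  unfold MM
  rw [Matrix.of_apply]
  by_cases hij : i = j
  · subst hij
    rw [if_pos rfl, if_pos rfl]
    have h1 : D.primeFactors.erase (P i) = ine a b D ∪ (spl a b D).erase (P i) := by
      have h2 : D.primeFactors = ine a b D ∪ spl a b D := by
        unfold ine spl
        rw [Finset.union_comm]
        exact (Finset.filter_union_filter_not_eq _ _).symm
      conv_lhs => rw [h2]
      rw [Finset.erase_union_distrib, Finset.erase_eq_of_notMem
        (fun h' => Finset.disjoint_left.1 (Pool.Agent.U115.GE.spl_ine a b D) h' (h.mem i))]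
    rw [h1, Finset.sum_union (Finset.disjoint_of_subset_right (Finset.erase_subset _ _)
      (Pool.Agent.U115.GE.spl_ine a b D)), ← add_assoc]
    rfl
  · rw [if_neg hij, if_neg (fun h' => hij (h.1 h'))]
    rfl

theorem cor_cork {D n : ℕ} {P : Fin n → ℕ} (h : En (Res a b) D n P) :
    cor (MM (thetaG a b) D P) = cork a b D := by
  have h1 : (MM (thetaG a b) D P).rank = (mat a b D).rank := by
    rw [mat_sub h, Matrix.rank_submatrix]
  have h2 : (spl a b D).card = n := h.card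
  unfold cor cork
  rw [h1, h2]

end Pool.Agent.U150.XG
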