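import Pool.Agent.U150.XG.Num

/-!
# Means of the coranks: two-sided bounds and exponential moments
-/

set_option autoImplicit false

open scoped Classical

namespace Pool.Agent.U150.XG

open Finset Matrix
open Pool.Agent.U687.Q2

variable {n : ℕ}

theorem prod_ge (n : ℕ) : (1 : ℝ) ≤ ∏ i ∈ Finset.range n, ((2 : ℝ) ^ (i + 1) - 1) := by
  induction n with
  | zero => simp
  | succ n ih =>
    rw [Finset.prod_range_succ]
    have h : (1 : ℝ) ≤ 2 ^ (n + 1) - 1 := by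
      have : (2 : ℝ) ^ 1 ≤ 2 ^ (n + 1) := pow_le_pow_right₀ (by norm_num) (by omega)
      linarith
    nlinarith

/-- **the mean corank tends to the mean of the limit law** -/
theorem mean_abs (A : Matrix (Fin n) (Fin n) (ZMod 2)) (s : ℕ) :
    |mean A s - kappa| ≤ 4 * ((∏ i ∈ Finset.range n, ((2 : ℝ) ^ (i + 1) - 1)) / 2 ^ s) := by
  have hB : 1 / 2 ^ s ≤ (∏ i ∈ Finset.range n, ((2 : ℝ) ^ (i + 1) - 1)) / 2 ^ s :=
    div_le_div_of_nonneg_right (prod_ge n) (by positivity)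
  have hB0 : (0 : ℝ) < 1 / 2 ^ s := by positivity
  have h1 := mean_dist A s
  rw [abs_le]
  constructor
  · have h2 := kappa_le (n + s + 1)
    have h3 := ee_tail (n + s)
    have h4 := ee_le (n + s + 1)
    have h5 : (1 / 3 : ℝ) ^ (n + s + 1) ≤ 1 / 3 * (1 / 2 ^ s) := by
      have e1 : (1 / 3 : ℝ) ^ (n + s) ≤ (1 / 3) ^ s :=
        pow_le_pow_of_le_one (by norm_num) (by norm_num) (by omega)
      have e2 : (1 / 3 : ℝ) ^ s ≤ (1 / 2) ^ s := pow_le_pow_left₀ (by norm_num) (by norm_num) s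
      rw [half_pow] at e2
      rw [pow_succ]
      linarith
    have h6 : mean A s = ∑ j ∈ Finset.range (n + s + 1),
        (1 - ∑ r ∈ Finset.range (j + 1), (TT^[s] (mu A)) r) := by
      unfold mean
      rw [abel, law_sum A s (n + s + 1) (by omega)]
    have h7 : ∀ j ∈ Finset.range (n + s + 1), (1 - ∑ r ∈ Finset.range (j + 1), prob r) -
        (∏ i ∈ Finset.range n, ((2 : ℝ) ^ (i + 1) - 1)) / 2 ^ s * ee j ≤
        1 - ∑ r ∈ Finset.range (j + 1), (TT^[s] (mu A)) r := by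
      intro j _
      have h8 := near_law A s (j + 1)
      rw [inv_ee] at h8
      have h9 : ww (j + 1) = ee j := rfl
      rw [h9] at h8
      have := (abs_le.1 h8).2
      linarith
    have h8 := Finset.sum_le_sum h7
    rw [Finset.sum_sub_distrib, ← Finset.mul_sum, ← h6] at h8
    have h9 : ∑ j ∈ Finset.range (n + s + 1), ee j ≤ ff 1 := by
      rw [ff_one_eq]
      exact ee_summable.sum_le_tsum _ fun j _ => (ee_pos j).le
    have h10 := ff_one_le
    have h11 : (∏ i ∈ Finset.range n, ((2 : ℝ) ^ (i + 1) - 1)) / 2 ^ s *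
        ∑ j ∈ Finset.range (n + s + 1), ee j ≤
        (∏ i ∈ Finset.range n, ((2 : ℝ) ^ (i + 1) - 1)) / 2 ^ s * 2.4 :=
      mul_le_mul_of_nonneg_left (h9.trans h10) (by linarith)
    linarith
  · linarith

/-! ### exponential moments -/

theorem UU_two (r : ℕ) : UU (fun r => (2 : ℝ) ^ r) r = 1 / 2 * 2 ^ r + 1 := by
  unfold UU
  rcases r with _ | r
  · norm_num
  · rw [Nat.add_sub_cancel]
    have h0 : (2 : ℝ) ^ r ≠ 0 := by positivity
    simp only [one_div, inv_pow, pow_succ]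
    field_simp
    ring

theorem UU_four (r : ℕ) : UU (fun r => (4 : ℝ) ^ r) r = 1 / 4 * 4 ^ r + 9 / 4 * 2 ^ r := by
  unfold UU
  have e : ∀ m : ℕ, (4 : ℝ) ^ m = 2 ^ m * 2 ^ m := fun m => by
    rw [← mul_pow]
    norm_num
  rcases r with _ | r
  · norm_num
  · rw [Nat.add_sub_cancel]
    simp only [e]
    have h0 : (2 : ℝ) ^ r ≠ 0 := by positivity
    simp only [one_div, inv_pow, pow_succ]
    field_simp
    ring

theorem UU_one (r : ℕ) : UU (fun _ => (1 : ℝ)) r = 1 := by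
  unfold UU
  rw [pow_succ]
  ring

theorem UUn_two (s r : ℕ) : (UU^[s] (fun r => (2 : ℝ) ^ r)) r = 2 + (2 ^ r - 2) / 2 ^ s := by
  induction s generalizing r with
  | zero => simp
  | succ s ih =>
    rw [Function.iterate_succ_apply']
    have h : UU^[s] (fun r => (2 : ℝ) ^ r) = fun r => (1 / 2 ^ s) * 2 ^ r + (2 - 2 / 2 ^ s) * 1 := by
      funext r
      rw [ih r]
      ring
    rw [h, UU_lin]
    show 1 / 2 ^ s * UU (fun r => (2 : ℝ) ^ r) r + (2 - 2 / 2 ^ s) * UU (fun _ => (1 : ℝ)) r = _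
    rw [UU_two, UU_one, pow_succ]
    have h0 : (2 : ℝ) ^ s ≠ 0 := by positivity
    field_simp
    ring

theorem UUn_four (s r : ℕ) : (UU^[s] (fun r => (4 : ℝ) ^ r)) r =
    6 + 9 * (2 ^ r - 2) / 2 ^ s + (4 ^ r - 9 * 2 ^ r + 12) / 4 ^ s := by
  induction s generalizing r with
  | zero => simp; ring
  | succ s ih =>
    rw [Function.iterate_succ_apply']
    have h : UU^[s] (fun r => (4 : ℝ) ^ r) = fun r => (1 / 4 ^ s) * 4 ^ r +
        1 * ((9 / 2 ^ s - 9 / 4 ^ s) * 2 ^ r + (6 - 18 / 2 ^ s + 12 / 4 ^ s) * 1) := by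
      funext r
      rw [ih r]
      ring
    rw [h, UU_lin]
    show 1 / 4 ^ s * UU (fun r => (4 : ℝ) ^ r) r + 1 * UU (fun r =>
      (9 / 2 ^ s - 9 / 4 ^ s) * 2 ^ r + (6 - 18 / 2 ^ s + 12 / 4 ^ s) * 1) r = _
    rw [UU_lin]
    show 1 / 4 ^ s * UU (fun r => (4 : ℝ) ^ r) r + 1 * ((9 / 2 ^ s - 9 / 4 ^ s) *
      UU (fun r => (2 : ℝ) ^ r) r + (6 - 18 / 2 ^ s + 12 / 4 ^ s) * UU (fun _ => (1 : ℝ)) r) = _
    rw [UU_two, UU_one, UU_four]
    have e : (4 : ℝ) ^ s = 2 ^ s * 2 ^ s := by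
      rw [← mul_pow]
      norm_num
    have e' : (4 : ℝ) ^ (s + 1) = 4 * (2 ^ s * 2 ^ s) := by
      rw [pow_succ, e]
      ring
    rw [e', e, pow_succ (2 : ℝ) s]
    have h0 : (2 : ℝ) ^ s ≠ 0 := by positivity
    field_simp
    ring

end Pool.Agent.U150.XG
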