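import Pool.Agent.U150.XG.Arith
import Pool.Agent.Q283.TW.Bord

/-!
# The laws of the coranks, their means and limits
-/

set_option autoImplicit false
set_option linter.unusedSectionVars false

open scoped Classical ENNReal

namespace Pool.Agent.U150.XG

open Finset Matrix Filter Topology
open Pool.Agent.U687.Q2

variable {n : ℕ}

theorem TT_def (μ : ℕ → ℝ) (r : ℕ) : TT μ r =
    (1 - (1 / 2) ^ (r + 1)) * μ (r + 1) + (1 / 2) ^ (r + 1) * μ r +
    (if r = 0 then 0 else (1 / 2) ^ r * μ (r - 1)) := rfl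

theorem UU_lin (c d : ℝ) (G H : ℕ → ℝ) :
    UU (fun r => c * G r + d * H r) = fun r => c * UU G r + d * UU H r := by
  funext r
  unfold UU
  ring

theorem UUn_lin (s : ℕ) (c d : ℝ) (G H : ℕ → ℝ) :
    UU^[s] (fun r => c * G r + d * H r) = fun r => c * (UU^[s] G) r + d * (UU^[s] H) r := by
  induction s generalizing G H with
  | zero => rfl
  | succ s ih =>
    rw [Function.iterate_succ_apply, Function.iterate_succ_apply, Function.iterate_succ_apply,
      UU_lin, ih]

/-- the law after `s` steps -/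
theorem law_eq (A : Matrix (Fin n) (Fin n) (ZMod 2)) (s r : ℕ) :
    ph (UU^[s] (pt r)) A = (TT^[s] (mu A)) r := by
  induction s generalizing r with
  | zero => rfl
  | succ s ih =>
    rw [Function.iterate_succ_apply, Function.iterate_succ_apply']
    have h := lin_UU (fun G => ph (UU^[s] G) A)
      (fun c d G H => by rw [UUn_lin, ph_lin]) r
    rw [h]
    congr 1
    funext r
    exact ih r

/-- the distance to the limit law -/
theorem near_law (A : Matrix (Fin n) (Fin n) (ZMod 2)) (s : ℕ) :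
    Near (TT^[s] (mu A)) (1 / ee n / 2 ^ s) := by
  induction s with
  | zero =>
    rw [pow_zero, div_one]
    exact mu_near A
  | succ s ih =>
    rw [Function.iterate_succ_apply', pow_succ, ← div_div]
    exact ih.step

theorem ww_le (r : ℕ) : ww r ≤ 1 := by
  rcases r with _ | r
  · show (0 : ℝ) ≤ 1
    norm_num
  · show ee r ≤ 1
    have := ee_mono (Nat.zero_le r)
    rwa [ee_zero] at this

theorem inv_ee (n : ℕ) : 1 / ee n = ∏ i ∈ Finset.range n, ((2 : ℝ) ^ (i + 1) - 1) := by
  unfold ee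
  rw [one_div_one_div]

/-- the distance of the distribution functions -/
theorem law_dist (A : Matrix (Fin n) (Fin n) (ZMod 2)) (s r : ℕ) :
    |∑ j ∈ Finset.range r, (TT^[s] (mu A)) j - ∑ j ∈ Finset.range r, prob j| ≤
      (∏ i ∈ Finset.range n, ((2 : ℝ) ^ (i + 1) - 1)) / 2 ^ s := by
  refine (near_law A s r).trans ?_
  rw [inv_ee]
  have h1 : 0 ≤ (∏ i ∈ Finset.range n, ((2 : ℝ) ^ (i + 1) - 1)) / 2 ^ s :=
    div_nonneg (pd_pos n).le (by positivity)
  have h2 := ww_le r
  nlinarith

theorem TTn_nonneg {μ : ℕ → ℝ} (h : ∀ r, 0 ≤ μ r) (s r : ℕ) : 0 ≤ (TT^[s] μ) r := by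
  induction s generalizing r with
  | zero => exact h r
  | succ s ih =>
    rw [Function.iterate_succ_apply']
    exact TT_nonneg ih r

theorem half_pow (n : ℕ) : (1 / 2 : ℝ) ^ n = 1 / 2 ^ n := by
  rw [one_div, inv_pow, one_div]

theorem mu_ge (A : Matrix (Fin n) (Fin n) (ZMod 2)) : (1 / 2 : ℝ) ^ n ≤ mu A 0 := by
  rw [mu_share, half_pow]
  obtain ⟨v, hv⟩ := Q283.TW.exists_diag A
  have h1 : Nonempty {y : Fin n → ZMod 2 // (A + diagonal y).rank + 0 = n} := by
    refine ⟨v, ?_⟩
    have h2 := (cor_zero_iff (A + diagonal v)).2 hv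
    have h3 := cor_rank (A + diagonal v)
    omega
  have h4 : 1 ≤ Nat.card {y : Fin n → ZMod 2 // (A + diagonal y).rank + 0 = n} := Nat.card_pos
  gcongr
  exact_mod_cast h4

/-- the lower bound -/
theorem law_ge (A : Matrix (Fin n) (Fin n) (ZMod 2)) (s : ℕ) :
    (1 / 2 : ℝ) ^ (n + s) ≤ (TT^[s] (mu A)) 0 := by
  induction s with
  | zero => exact mu_ge A
  | succ s ih =>
    rw [Function.iterate_succ_apply', ← add_assoc, pow_succ]
    have := TT_zero_ge (TTn_nonneg (mu_nonneg A) s)
    linarith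

/-- the law is supported on `r ≤ n + s` -/
theorem law_zero (A : Matrix (Fin n) (Fin n) (ZMod 2)) (s r : ℕ) (h : n + s < r) :
    (TT^[s] (mu A)) r = 0 := by
  induction s generalizing r with
  | zero =>
    show mu A r = 0
    unfold mu ph
    rw [Finset.sum_eq_zero fun y _ => ?_, zero_div]
    unfold pt
    rw [if_neg]
    have := cor_le (A + diagonal y)
    omega
  | succ s ih =>
    rw [Function.iterate_succ_apply', TT_def, ih (r + 1) (by omega), ih r (by omega)]
    split_ifs
    · ring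
    · rw [ih (r - 1) (by omega)]
      ring

theorem law_sum (A : Matrix (Fin n) (Fin n) (ZMod 2)) (s m : ℕ) (h : n + s < m) :
    ∑ j ∈ Finset.range m, (TT^[s] (mu A)) j = 1 := by
  induction s generalizing m with
  | zero => exact mu_sum A (by omega)
  | succ s ih =>
    obtain ⟨r, rfl⟩ : ∃ r, m = r + 1 := ⟨m - 1, by omega⟩
    rw [Function.iterate_succ_apply', cum_TT, ih (r + 2) (by omega), ih r (by omega)]
    ring

/-! ### means -/

/-- the mean of a function of the corank -/
theorem ph_fun (G : ℕ → ℝ) (A : Matrix (Fin n) (Fin n) (ZMod 2)) (m : ℕ) (hm : n < m) :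
    ph G A = ∑ r ∈ Finset.range m, G r * mu A r := by
  unfold mu ph
  rw [Finset.sum_div]
  have h1 : ∀ y : Fin n → ZMod 2, G (cor (A + diagonal y)) =
      ∑ r ∈ Finset.range m, G r * pt r (cor (A + diagonal y)) := by
    intro y
    unfold pt
    simp only [mul_ite, mul_one, mul_zero]
    rw [Finset.sum_ite_eq, if_pos]
    rw [Finset.mem_range]
    exact lt_of_le_of_lt (cor_le _) hm
  rw [Finset.sum_congr rfl fun y _ => by rw [h1 y]]
  rw [← Finset.sum_div, Finset.sum_comm, Finset.sum_div]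
  refine Finset.sum_congr rfl fun r _ => ?_
  rw [← Finset.mul_sum, mul_div_assoc]

/-- one step of the mean -/
theorem UU_sum (G μ : ℕ → ℝ) (m : ℕ) (h : ∀ r, m ≤ r → μ r = 0) :
    ∑ r ∈ Finset.range m, UU G r * μ r = ∑ r ∈ Finset.range (m + 1), G r * TT μ r := by
  -- for a point mass
  have key : ∀ N : ℕ, ∑ r ∈ Finset.range N, UU G r * μ r =
      ∑ r ∈ Finset.range N, G r * TT μ r - (1 - (1 / 2) ^ N) * G (N - 1) * μ N +
        (if N = 0 then 0 else (1 / 2) ^ N * G N * μ (N - 1)) := by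
    intro N
    induction N with
    | zero => simp
    | succ N ih =>
      rw [Finset.sum_range_succ, ih, Finset.sum_range_succ, if_neg (Nat.succ_ne_zero N),
        Nat.add_sub_cancel]
      unfold UU TT
      by_cases hN : N = 0
      · subst hN
        simp
        ring
      · rw [if_neg hN, if_neg hN]
        ring
  have h1 := key (m + 1)
  rw [Nat.add_sub_cancel, if_neg (Nat.succ_ne_zero m), h m le_rfl, h (m + 1) (by omega),
    Finset.sum_range_succ, h m le_rfl, mul_zero, mul_zero, mul_zero, add_zero, sub_zero,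
    add_zero] at h1
  exact h1

theorem ph_law (G : ℕ → ℝ) (A : Matrix (Fin n) (Fin n) (ZMod 2)) (s m : ℕ) (hm : n + s < m) :
    ph (UU^[s] G) A = ∑ r ∈ Finset.range m, G r * (TT^[s] (mu A)) r := by
  have key : ∀ s m : ℕ, n + s < m → ∀ G : ℕ → ℝ, ph (UU^[s] G) A =
      ∑ r ∈ Finset.range (n + s + 1), G r * (TT^[s] (mu A)) r := by
    intro s
    induction s with
    | zero =>
      intro m _ G
      exact ph_fun G A (n + 1) (by omega)
    | succ s ih =>
      intro m hm G
      rw [Function.iterate_succ_apply, ih (n + s + 1) (by omega), UU_sum, Function.iterate_succ_apply']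
      · rfl
      · intro r hr
        exact law_zero A s r (by omega)
  rw [key s m hm G]
  refine Finset.sum_subset (Finset.range_mono (by omega)) fun r _ hr => ?_
  rw [law_zero A s r (by
    rw [Finset.mem_range] at hr
    omega), mul_zero]

/-- summation by parts -/
theorem abel (p : ℕ → ℝ) (m : ℕ) : ∑ r ∈ Finset.range m, (r : ℝ) * p r =
    ∑ j ∈ Finset.range m, (∑ r ∈ Finset.range m, p r - ∑ r ∈ Finset.range (j + 1), p r) := by
  induction m with
  | zero => simp
  | succ m ih =>
    rw [Finset.sum_range_succ, ih, Finset.sum_range_succ _ m]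
    rw [sub_self, add_zero, Finset.sum_range_succ p m]
    have h1 : ∀ j, ∑ r ∈ Finset.range m, p r + p m - ∑ r ∈ Finset.range (j + 1), p r =
        (∑ r ∈ Finset.range m, p r - ∑ r ∈ Finset.range (j + 1), p r) + p m := fun j => by ring
    rw [Finset.sum_congr rfl fun j _ => h1 j, Finset.sum_add_distrib, Finset.sum_const,
      Finset.card_range, nsmul_eq_mul]

/-- the mean of the limit law -/
noncomputable def kappa : ℝ := ∑' r : ℕ, (r : ℝ) * prob r

theorem rprob_summable : Summable fun r : ℕ => (r : ℝ) * prob r := by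
  have hn : ‖(1 / 3 : ℝ)‖ < 1 := by
    rw [Real.norm_eq_abs, abs_of_pos (by norm_num)]
    norm_num
  have h0 : Summable fun r : ℕ => ((r : ℝ) ^ 1 * (1 / 3 : ℝ) ^ r) :=
    summable_pow_mul_geometric_of_norm_lt_one 1 hn
  have h1 : Summable fun r : ℕ => 3 * ((r : ℝ) ^ 1 * (1 / 3 : ℝ) ^ r) := h0.mul_left 3
  refine Summable.of_nonneg_of_le (fun r => mul_nonneg (Nat.cast_nonneg r) (prob_pos r).le)
    (fun r => ?_) h1
  have h2 := ee_le r
  have h3 := ee_pos r
  obtain ⟨-, h4, h5, -, -⟩ := lim2_facts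
  have h6 : prob r ≤ 3 * (1 / 3) ^ r := by
    unfold prob
    nlinarith
  rw [pow_one]
  have h7 : (0 : ℝ) ≤ r := Nat.cast_nonneg r
  nlinarith

theorem kappa_ge (m : ℕ) : ∑ j ∈ Finset.range m, (1 - ∑ r ∈ Finset.range (j + 1), prob r) ≤ kappa := by
  have h0 : ∀ M, ∑ r ∈ Finset.range M, (r : ℝ) * prob r ≤ kappa := fun M =>
    rprob_summable.sum_le_tsum _ fun r _ => mul_nonneg (Nat.cast_nonneg r) (prob_pos r).le
  have h1 : Tendsto (fun M => ∑ j ∈ Finset.range m, (∑ r ∈ Finset.range M, prob r -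
      ∑ r ∈ Finset.range (j + 1), prob r)) atTop
      (𝓝 (∑ j ∈ Finset.range m, (1 - ∑ r ∈ Finset.range (j + 1), prob r))) :=
    tendsto_finsetSum _ fun j _ => prob_hasSum.tendsto_sum_nat.sub_const _
  refine le_of_tendsto h1 ?_
  filter_upwards [eventually_ge_atTop m] with M hM
  refine le_trans ?_ (h0 M)
  rw [abel]
  refine Finset.sum_le_sum_of_subset_of_nonneg (Finset.range_mono hM) fun j hj _ => ?_
  rw [Finset.mem_range] at hj
  have := Finset.sum_le_sum_of_subset_of_nonneg (f := prob) (Finset.range_mono (by omega : j + 1 ≤ M))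
    fun r _ _ => (prob_pos r).le
  linarith

theorem kappa_le (m : ℕ) : kappa ≤ ∑ j ∈ Finset.range m, (1 - ∑ r ∈ Finset.range (j + 1), prob r) +
    ∑' j : ℕ, ee (j + m) := by
  have hs : Summable fun j : ℕ => ee (j + m) := (summable_nat_add_iff m).2 ee_summable
  refine Real.tsum_le_of_sum_range_le (fun r => mul_nonneg (Nat.cast_nonneg r) (prob_pos r).le)
    fun M => ?_
  rw [abel]
  have h1 : ∀ j ∈ Finset.range M, ∑ r ∈ Finset.range M, prob r -
      ∑ r ∈ Finset.range (j + 1), prob r ≤ 1 - ∑ r ∈ Finset.range (j + 1), prob r := by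
    intro j _
    have := prob_cum M
    linarith
  refine (Finset.sum_le_sum h1).trans ?_
  have h2 : ∀ M, ∑ j ∈ Finset.range M, (1 - ∑ r ∈ Finset.range (j + 1), prob r) ≤
      ∑ j ∈ Finset.range (m + M), (1 - ∑ r ∈ Finset.range (j + 1), prob r) := fun M =>
    Finset.sum_le_sum_of_subset_of_nonneg (Finset.range_mono (by omega)) fun j _ _ =>
      prob_cum (j + 1)
  refine (h2 M).trans ?_
  rw [Finset.sum_range_add]
  refine add_le_add le_rfl ?_
  refine le_trans (Finset.sum_le_sum fun j _ => prob_tail (m + j)) ?_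
  have h3 := hs.sum_le_tsum (Finset.range M) fun j _ => (ee_pos _).le
  refine le_trans (le_of_eq ?_) h3
  exact Finset.sum_congr rfl fun j _ => by rw [add_comm]

/-- the mean corank after `s` steps -/
noncomputable def mean (A : Matrix (Fin n) (Fin n) (ZMod 2)) (s : ℕ) : ℝ :=
  ∑ r ∈ Finset.range (n + s + 1), (r : ℝ) * (TT^[s] (mu A)) r

theorem ff_one_eq : ff 1 = ∑' r, ee r := tsum_congr fun r => by rw [one_pow, mul_one]

theorem ff_one_le : ff 1 ≤ 2.4 := by
  have h := ff_one
  obtain ⟨-, h1, -, h2, -⟩ := lim2_facts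
  have h3 : 0 < ff 1 := by
    by_contra h0
    push Not at h0
    nlinarith
  nlinarith

/-- **the mean corank tends to the mean of the limit law** -/
theorem mean_dist (A : Matrix (Fin n) (Fin n) (ZMod 2)) (s : ℕ) :
    mean A s ≤ kappa + 2.4 * ((∏ i ∈ Finset.range n, ((2 : ℝ) ^ (i + 1) - 1)) / 2 ^ s) := by
  unfold mean
  rw [abel, law_sum A s (n + s + 1) (by omega)]
  have hB : 0 ≤ (∏ i ∈ Finset.range n, ((2 : ℝ) ^ (i + 1) - 1)) / 2 ^ s :=
    div_nonneg (pd_pos n).le (by positivity)
  have h1 : ∀ j ∈ Finset.range (n + s + 1), 1 - ∑ r ∈ Finset.range (j + 1), (TT^[s] (mu A)) r ≤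
      (1 - ∑ r ∈ Finset.range (j + 1), prob r) +
        (∏ i ∈ Finset.range n, ((2 : ℝ) ^ (i + 1) - 1)) / 2 ^ s * ee j := by
    intro j _
    have h2 := near_law A s (j + 1)
    rw [inv_ee] at h2
    have h3 : ww (j + 1) = ee j := rfl
    rw [h3] at h2
    have := (abs_le.1 h2).1
    linarith
  refine (Finset.sum_le_sum h1).trans ?_
  rw [Finset.sum_add_distrib, ← Finset.mul_sum]
  have h4 := kappa_ge (n + s + 1)
  have h5 : ∑ j ∈ Finset.range (n + s + 1), ee j ≤ ff 1 := by
    rw [ff_one_eq]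
    exact ee_summable.sum_le_tsum _ fun j _ => (ee_pos j).le
  have h6 := ff_one_le
  have h7 : (∏ i ∈ Finset.range n, ((2 : ℝ) ^ (i + 1) - 1)) / 2 ^ s *
      ∑ j ∈ Finset.range (n + s + 1), ee j ≤
      (∏ i ∈ Finset.range n, ((2 : ℝ) ^ (i + 1) - 1)) / 2 ^ s * 2.4 :=
    mul_le_mul_of_nonneg_left (h5.trans h6) hB
  linarith

end Pool.Agent.U150.XG
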