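import Pool.Agent.U150.XG.Mom

/-!
# All exponential moments of the coranks
-/

set_option autoImplicit false

open scoped Classical

namespace Pool.Agent.U150.XG

open Finset Matrix
open Pool.Agent.U687.Q2

variable {n : ℕ}

/-- the exponential moments after `t` steps -/
noncomputable def emom (A : Matrix (Fin n) (Fin n) (ZMod 2)) (t m : ℕ) : ℝ :=
  ph (UU^[t] (fun r => (2 : ℝ) ^ (m * r))) A

/-- their limits -/
noncomputable def LL (m : ℕ) : ℝ := ∏ i ∈ Finset.range m, (1 + (2 : ℝ) ^ i)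

theorem LL_succ (m : ℕ) : LL (m + 1) = LL m * (1 + 2 ^ m) := Finset.prod_range_succ _ _

theorem LL_pos (m : ℕ) : 0 < LL m := Finset.prod_pos fun i _ => by positivity

theorem LL_ge (m : ℕ) : 1 ≤ LL m := by
  induction m with
  | zero => simp [LL]
  | succ m ih =>
    rw [LL_succ]
    have : (0 : ℝ) < 2 ^ m := by positivity
    nlinarith

theorem UU_exp (m r : ℕ) : UU (fun r => (2 : ℝ) ^ ((m + 1) * r)) r =
    (1 / 2) ^ (m + 1) * 2 ^ ((m + 1) * r) + (1 - (1 / 2) ^ (m + 1)) * (1 + 2 ^ m) * 2 ^ (m * r) := by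
  unfold UU
  have hp : (0 : ℝ) < 2 ^ m := by positivity
  have e1 : (1 / 2 : ℝ) ^ (m + 1) = 1 / (2 * 2 ^ m) := by
    rw [half_pow, pow_succ, mul_comm]
  rw [e1]
  rcases r with _ | r
  · simp only [mul_zero, pow_zero, zero_add, mul_one, pow_one, sub_self, zero_mul]
    have e2 : (2 : ℝ) ^ (m + 1) = 2 * 2 ^ m := by rw [pow_succ, mul_comm]
    rw [e2]
    field_simp
    ring
  · rw [Nat.add_sub_cancel]
    have hu : (0 : ℝ) < 2 ^ r := by positivity
    have hy : (0 : ℝ) < 2 ^ (m * r) := by positivity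
    have e2 : (1 / 2 : ℝ) ^ (r + 1) = 1 / (2 * 2 ^ r) := by
      rw [half_pow, pow_succ, mul_comm]
    have e3 : (1 / 2 : ℝ) ^ (r + 1 + 1) = 1 / (4 * 2 ^ r) := by
      rw [half_pow, pow_succ, pow_succ]
      congr 1
      ring
    have e4 : (2 : ℝ) ^ ((m + 1) * r) = 2 ^ (m * r) * 2 ^ r := by
      rw [← pow_add]
      congr 1
      ring
    have e5 : (2 : ℝ) ^ ((m + 1) * (r + 1)) = 2 ^ (m * r) * 2 ^ r * (2 * 2 ^ m) := by
      have : (m + 1) * (r + 1) = m * r + r + (1 + m) := by ring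
      rw [this, pow_add, pow_add, pow_add, pow_one]
    have e6 : (2 : ℝ) ^ ((m + 1) * (r + 1 + 1)) = 2 ^ (m * r) * 2 ^ r * (2 * 2 ^ m) ^ 2 := by
      have : (m + 1) * (r + 1 + 1) = m * r + r + (1 + m) + (1 + m) := by ring
      rw [this, pow_add, pow_add, pow_add, pow_add, pow_one]
      ring
    have e7 : (2 : ℝ) ^ (m * (r + 1)) = 2 ^ (m * r) * 2 ^ m := by
      rw [← pow_add]
      congr 1
    beta_reduce
    rw [e2, e3, e4, e5, e6, e7]
    generalize (2 : ℝ) ^ (m * r) = y at *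
    generalize (2 : ℝ) ^ m = p at *
    generalize (2 : ℝ) ^ r = u at *
    field_simp
    ring

/-- the recursion -/
theorem emom_succ (A : Matrix (Fin n) (Fin n) (ZMod 2)) (t m : ℕ) :
    emom A (t + 1) (m + 1) = (1 / 2) ^ (m + 1) * emom A t (m + 1) +
      (1 - (1 / 2) ^ (m + 1)) * (1 + 2 ^ m) * emom A t m := by
  unfold emom
  rw [Function.iterate_succ_apply]
  have h : UU (fun r => (2 : ℝ) ^ ((m + 1) * r)) = fun r =>
      (1 / 2) ^ (m + 1) * 2 ^ ((m + 1) * r) +
        (1 - (1 / 2) ^ (m + 1)) * (1 + 2 ^ m) * 2 ^ (m * r) := funext fun r => UU_exp m r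
  rw [h, UUn_lin t ((1 / 2) ^ (m + 1)) ((1 - (1 / 2) ^ (m + 1)) * (1 + 2 ^ m))
    (fun r => (2 : ℝ) ^ ((m + 1) * r)) (fun r => (2 : ℝ) ^ (m * r)), ph_lin]

theorem emom_sum (A : Matrix (Fin n) (Fin n) (ZMod 2)) (t m : ℕ) :
    emom A t m = ∑ r ∈ Finset.range (n + t + 1), (2 : ℝ) ^ (m * r) * (TT^[t] (mu A)) r :=
  ph_law _ A t (n + t + 1) (by omega)

theorem emom_zero (A : Matrix (Fin n) (Fin n) (ZMod 2)) (t : ℕ) : emom A t 0 = 1 := by
  rw [emom_sum, ← law_sum A t (n + t + 1) (by omega)]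
  exact Finset.sum_congr rfl fun r _ => by rw [zero_mul, pow_zero, one_mul]

theorem emom_init (A : Matrix (Fin n) (Fin n) (ZMod 2)) (m : ℕ) :
    1 ≤ emom A 0 m ∧ emom A 0 m ≤ 2 ^ (m * n) := by
  have h2 : (0 : ℝ) < 2 ^ n := by positivity
  have hc : (∑ _y : Fin n → ZMod 2, (1 : ℝ)) = 2 ^ n := by
    rw [Finset.sum_const, nsmul_eq_mul, mul_one, Finset.card_univ, Fintype.card_fun, ZMod.card,
      Fintype.card_fin]
    push_cast
    rfl
  unfold emom ph
  rw [Function.iterate_zero, id_eq, le_div_iff₀ h2, div_le_iff₀ h2, one_mul]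
  constructor
  · rw [← hc]
    exact Finset.sum_le_sum fun y _ => one_le_pow₀ (by norm_num)
  · rw [← hc, Finset.mul_sum]
    refine Finset.sum_le_sum fun y _ => ?_
    rw [mul_one]
    exact pow_le_pow_right₀ (by norm_num) (Nat.mul_le_mul_left _ (cor_le _))

theorem emom_dev (A : Matrix (Fin n) (Fin n) (ZMod 2)) (m t : ℕ) : ∀ j ≤ m,
    |emom A t j / LL j - 1| ≤ (2 ^ j - 1) * 2 ^ (m * n) / 2 ^ t := by
  have hB : (1 : ℝ) ≤ 2 ^ (m * n) := one_le_pow₀ (by norm_num)
  induction t with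
  | zero =>
    intro j hj
    rw [pow_zero, div_one]
    rcases j with _ | j
    · rw [emom_zero]
      simp [LL]
    · obtain ⟨h1, h2⟩ := emom_init A (j + 1)
      have h3 : (2 : ℝ) ^ ((j + 1) * n) ≤ 2 ^ (m * n) :=
        pow_le_pow_right₀ (by norm_num) (Nat.mul_le_mul_right _ hj)
      have h4 : (1 : ℝ) ≤ 2 ^ (j + 1) - 1 := by
        have : (2 : ℝ) ^ 1 ≤ 2 ^ (j + 1) := pow_le_pow_right₀ (by norm_num) (by omega)
        linarith
      have h5 : (2 : ℝ) ^ (m * n) ≤ (2 ^ (j + 1) - 1) * 2 ^ (m * n) :=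
        le_mul_of_one_le_left (by linarith) h4
      have h6 : 0 ≤ emom A 0 (j + 1) / LL (j + 1) := div_nonneg (by linarith) (LL_pos _).le
      have h7 : emom A 0 (j + 1) / LL (j + 1) ≤ emom A 0 (j + 1) :=
        div_le_self (by linarith) (LL_ge _)
      rw [abs_le]
      constructor <;> linarith
  | succ t ih =>
    intro j hj
    rcases j with _ | j
    · rw [emom_zero]
      simp [LL]
    · have h1 := ih (j + 1) hj
      have h2 := ih j (by omega)
      have hL := LL_pos j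
      have hp : (0 : ℝ) < 2 ^ j := by positivity
      have ht : (0 : ℝ) < 2 ^ t := by positivity
      have e : emom A (t + 1) (j + 1) / LL (j + 1) - 1 =
          (1 / 2) ^ (j + 1) * (emom A t (j + 1) / LL (j + 1) - 1) +
          (1 - (1 / 2) ^ (j + 1)) * (emom A t j / LL j - 1) := by
        rw [emom_succ, LL_succ]
        have h3 : (1 : ℝ) + 2 ^ j ≠ 0 := by positivity
        field_simp
        ring
      have h3 : (0 : ℝ) ≤ (1 / 2) ^ (j + 1) := by positivity
      have h4 : (0 : ℝ) ≤ 1 - (1 / 2) ^ (j + 1) := by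
        have : (1 / 2 : ℝ) ^ (j + 1) ≤ 1 := pow_le_one₀ (by norm_num) (by norm_num)
        linarith
      rw [e]
      refine (abs_add_le _ _).trans ?_
      rw [abs_mul, abs_mul, abs_of_nonneg h3, abs_of_nonneg h4]
      refine (add_le_add (mul_le_mul_of_nonneg_left h1 h3)
        (mul_le_mul_of_nonneg_left h2 h4)).trans (le_of_eq ?_)
      have e1 : (1 / 2 : ℝ) ^ (j + 1) = 1 / (2 * 2 ^ j) := by
        rw [half_pow, pow_succ, mul_comm]
      have e2 : (2 : ℝ) ^ (j + 1) = 2 * 2 ^ j := by rw [pow_succ, mul_comm]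
      have e3 : (2 : ℝ) ^ (t + 1) = 2 * 2 ^ t := by rw [pow_succ, mul_comm]
      rw [e1, e2, e3]
      field_simp
      ring

/-- **all the exponential moments converge, with an explicit rate** -/
theorem emom_dist (A : Matrix (Fin n) (Fin n) (ZMod 2)) (t m : ℕ) :
    |emom A t m - LL m| ≤ LL m * ((2 ^ m - 1) * 2 ^ (m * n) / 2 ^ t) := by
  have h := emom_dev A m t m le_rfl
  have hL := LL_pos m
  have e : emom A t m - LL m = LL m * (emom A t m / LL m - 1) := by
    field_simp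
  rw [e, abs_mul, abs_of_pos hL]
  exact mul_le_mul_of_nonneg_left h hL.le

end Pool.Agent.U150.XG
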