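import Pool.Agent.U150.XG.Mq
import Pool.Agent.U150.XG.Exp

/-!
# The exponential moments over the successive prime twists
-/

set_option autoImplicit false

open scoped Classical ENNReal

namespace Pool.Agent.U150.XG.Mq

open Pool.Agent.TH841.NF.D (rk Sha)
open Filter Matrix Finset
open Pool.Agent.Results.MP_6073f3_nt.SuccessivePrimeTwists (Res Inert Member Given lowerMean
  upperMean indicator Density split splitSteps chain c low_of up_of dens_of chain_eq)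
open Pool.Agent.U115.GE (cork Class)
open Pool.Agent.U150.XG (En MM exists_en ns emom)
open Pool.Agent.U687.Q2 (ph UU TT mu)

variable {a b : ℤ}

/-- the exponential moment of the chain -/
noncomputable def cmom (a b : ℤ) (q : ℕ → ℕ) (k D m : ℕ) : ℝ :=
  ∑ r ∈ Finset.range ((split a b D).card + splitSteps a b q k + 1),
    (2 : ℝ) ^ (m * r) * chain a b q k D r

theorem cmom_eq (q : ℕ → ℕ) (k m : ℕ) {D : ℕ}
    {P : Fin (D.primeFactors.filter (Pool.Agent.U115.GE.Res a b)).card → ℕ}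
    (h : En (Pool.Agent.U115.GE.Res a b) D
      (D.primeFactors.filter (Pool.Agent.U115.GE.Res a b)).card P) :
    cmom a b q k D m = emom (MM (Pool.Agent.U115.GE.thetaG a b) D P)
      (ns (fun i => Pool.Agent.U115.GE.Res a b (q i)) k) m := by
  rw [Pool.Agent.U150.XG.emom_sum]
  unfold cmom
  rw [chain_eq q k h]
  rfl

theorem ph_scale {n : ℕ} (A : Matrix (Fin n) (Fin n) (ZMod 2)) (t m : ℕ) (x : ℝ) :
    ph (UU^[t] (fun r => x * (2 : ℝ) ^ (m * r))) A = x * emom A t m := by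
  rw [Pool.Agent.U150.XG.ph_law _ A t (n + t + 1) (by omega), Pool.Agent.U150.XG.emom_sum,
    Finset.mul_sum]
  exact Finset.sum_congr rfl fun r _ => by rw [mul_assoc]

theorem cmom_dist (q : ℕ → ℕ) (k D m : ℕ) : |cmom a b q k D m - Pool.Agent.U150.XG.LL m| ≤
    Pool.Agent.U150.XG.LL m * ((2 ^ m - 1) * 2 ^ (m * (split a b D).card) /
      2 ^ splitSteps a b q k) := by
  obtain ⟨P, h⟩ := exists_en (Pool.Agent.U115.GE.Res a b) D
  rw [cmom_eq q k m h]
  exact Pool.Agent.U150.XG.emom_dist _ _ _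

theorem up_exp (hb : ¬ IsSquare b) (hc : ¬ IsSquare (a ^ 2 - 4 * b)) {q : ℕ → ℕ}
    (hq : Given a b q) (T : ℕ → ℝ≥0∞) (x : ℝ) (hx : 0 ≤ x) (m : ℕ)
    (hT : ∀ N, Class a b N → T N ≤ ENNReal.ofReal (x * 2 ^ (m * cork a b N))) (k : ℕ)
    {D : ℕ} (hD : Member a b D) (hR : Res a b (D * ∏ i ∈ Finset.range (k + 1), q i)) :
    upperMean a b q T (k + 1) D ≤ ENNReal.ofReal (x * cmom a b q k D m) := by
  obtain ⟨P, h⟩ := exists_en (Pool.Agent.U115.GE.Res a b) D
  have h3 := up_of hb hc hq T (fun r => x * (2 : ℝ) ^ (m * r)) (fun r => by positivity) hT k hD hR h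
  rwa [ph_scale, ← cmom_eq q k m h] at h3

theorem low_exp (hb : ¬ IsSquare b) (hc : ¬ IsSquare (a ^ 2 - 4 * b)) {q : ℕ → ℕ}
    (hq : Given a b q) (T : ℕ → ℝ≥0∞) (x : ℝ) (hx : 0 ≤ x) (m : ℕ)
    (hT : ∀ N, Class a b N → ENNReal.ofReal (x * 2 ^ (m * cork a b N)) ≤ T N) (k : ℕ)
    {D : ℕ} (hD : Member a b D) (hR : Res a b (D * ∏ i ∈ Finset.range (k + 1), q i)) :
    ENNReal.ofReal (x * cmom a b q k D m) ≤ lowerMean a b q T (k + 1) D := by
  obtain ⟨P, h⟩ := exists_en (Pool.Agent.U115.GE.Res a b) D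
  have h3 := low_of hb hc hq T (fun r => x * (2 : ℝ) ^ (m * r)) (fun r => by positivity) hT k hD hR h
  rwa [ph_scale, ← cmom_eq q k m h] at h3

/-- the mean of a function given by the corank -/
theorem eq_exp (hb : ¬ IsSquare b) (hc : ¬ IsSquare (a ^ 2 - 4 * b)) {q : ℕ → ℕ}
    (hq : Given a b q) (T : ℕ → ℝ≥0∞) (x : ℝ) (hx : 0 ≤ x) (m : ℕ)
    (hT : ∀ N, Class a b N → T N = ENNReal.ofReal (x * 2 ^ (m * cork a b N))) (k : ℕ)
    {D : ℕ} (hD : Member a b D) (hR : Res a b (D * ∏ i ∈ Finset.range (k + 1), q i)) :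
    lowerMean a b q T (k + 1) D = ENNReal.ofReal (x * cmom a b q k D m) ∧
    upperMean a b q T (k + 1) D = ENNReal.ofReal (x * cmom a b q k D m) := by
  have h1 := low_exp hb hc hq T x hx m (fun N hN => (hT N hN).ge) k hD hR
  have h2 := up_exp hb hc hq T x hx m (fun N hN => (hT N hN).le) k hD hR
  have h4 := Pool.Agent.Results.MP_6073f3_nt.SuccessivePrimeTwists.lower_le_upper
    (a := a) (b := b) q T (k + 1) D
  exact ⟨le_antisymm (h4.trans h2) h1, le_antisymm h2 (h1.trans h4)⟩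

section

open Pool.Agent.Results.MP_81dc49_nt.RanksOverMultiquadraticFields (Sel)

/-- the Selmer groups of the twists -/
theorem sel_m (hb : ¬ IsSquare b) (hc : ¬ IsSquare (a ^ 2 - 4 * b)) {M m : ℤ} (hM : M ≠ 0)
    (h : m ∣ M) {N : ℕ} (hN : Class (a * M) (b * M ^ 2) N) :
    (Sel (a * m * N) (b * m ^ 2 * N ^ 2)).ncard = 2 ^ cork a b N * (Sel (a * m) (b * m ^ 2)).ncard ∧
    (Sel (-2 * (a * m * N)) ((a * m * N) ^ 2 - 4 * (b * m ^ 2 * N ^ 2))).ncard =
      2 ^ cork a b N * (Sel (-2 * (a * m)) ((a * m) ^ 2 - 4 * (b * m ^ 2))).ncard := by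
  have hb0 : b ≠ 0 := by
    rintro rfl
    exact hb ⟨0, by norm_num⟩
  have hc0 : a ^ 2 - 4 * b ≠ 0 := by
    intro h
    exact hc ⟨0, by rw [h]; norm_num⟩
  have hm : m ≠ 0 := by
    rintro rfl
    exact hM (zero_dvd_iff.1 h)
  obtain ⟨g1, g2⟩ := Pool.Agent.U79.TF.gc_ne hb0 hc0 hm
  have hD' := Pool.Agent.U79.TF.class_sub h hN
  have H := Pool.Agent.U115.GE.class_hg g1 g2 hD'
  have e1 := H.sel_eq Pool.Agent.U739.GE.t_GOOD
  have e2 := H.sel_eq' Pool.Agent.U739.GE.t_GOOD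
  rw [← Pool.Agent.U115.GE.prod_eq hD'.1, Pool.Agent.U115.GE.class_kap g1 g2 hD',
    Pool.Agent.U79.MO.cork_m h hN] at e1 e2
  exact ⟨e1, e2⟩

end

end Pool.Agent.U150.XG.Mq
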