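import Mathlib
import Pool.Agent.Q283.TW.Dens
import Pool.Agent.W401.Cheb.Asm

/-!
# The density of the primes of a set of residue classes
-/

set_option autoImplicit false
set_option linter.unusedSectionVars false

open scoped Classical

namespace Pool.Agent.U150.XG

open Finset Filter Topology NumberField
open Q283.TW (dens_of)
open Pool.Agent.W401.Cheb (HasFrob M pr mem_pr M_congr)

section
variable (m : ℕ) [NeZero m] (L : Type) [Field L] [NumberField L] [IsCyclotomicExtension {m} ℚ L]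
  [IsGalois ℚ L]

/-- the exponent of an automorphism -/
noncomputable def ex : Gal(L/ℚ) ≃* (ZMod m)ˣ :=
  IsCyclotomicExtension.autEquivPow L (Polynomial.cyclotomic.irreducible_rat (NeZero.pos m))

theorem ex_spec (g : Gal(L/ℚ)) : g (IsCyclotomicExtension.zeta m ℚ L) =
    IsCyclotomicExtension.zeta m ℚ L ^ ((ex m L g : (ZMod m)ˣ) : ZMod m).val :=
  ((IsCyclotomicExtension.zeta_spec m ℚ L).autToPow_spec ℚ g).symm

/-- Frobenius elements of the cyclotomic field -/
theorem frob_cyc (p : ℕ) [hp : Fact p.Prime] (hpm : ¬ p ∣ m)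
    (φ : 𝓞 L →+* AlgebraicClosure (ZMod p)) (g : Gal(L/ℚ)) (hφ : HasFrob p φ g) :
    ((ex m L g : (ZMod m)ˣ) : ZMod m) = (p : ZMod m) := by
  have hζ := IsCyclotomicExtension.zeta_spec m ℚ L
  have hinj : Function.Injective (algebraMap (𝓞 L) L) := RingOfIntegers.coe_injective
  obtain ⟨z, hz⟩ : ∃ z : 𝓞 L, algebraMap (𝓞 L) L z = IsCyclotomicExtension.zeta m ℚ L :=
    ⟨⟨_, hζ.isIntegral (NeZero.pos m)⟩, rfl⟩
  have hzp : IsPrimitiveRoot z m := by
    rw [← hz] at hζ
    exact hζ.of_map_of_injective hinj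
  have h1 : g • z = z ^ ((ex m L g : (ZMod m)ˣ) : ZMod m).val := by
    apply hinj
    rw [map_pow, hz]
    have h0 : algebraMap (𝓞 L) L (g • z) = g (algebraMap (𝓞 L) L z) := rfl
    rw [h0, hz]
    exact ex_spec m L g
  generalize ((ex m L g : (ZMod m)ˣ) : ZMod m) = j at h1 ⊢
  have hne : NeZero ((m : ℕ) : AlgebraicClosure (ZMod p)) := by
    refine ⟨fun h => hpm ?_⟩
    exact (CharP.cast_eq_zero_iff (AlgebraicClosure (ZMod p)) p m).1 h
  have h2 : IsPrimitiveRoot (φ z) m := by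
    rw [← Polynomial.isRoot_cyclotomic_iff]
    have h3 := (hzp.isRoot_cyclotomic (NeZero.pos m)).map (f := φ)
    rw [Polynomial.map_cyclotomic] at h3
    exact h3
  have h4 := hφ z
  rw [h1, map_pow] at h4
  have h5 : j.val ≡ p [MOD m] := by
    obtain ⟨u, hu⟩ := h2.isUnit (NeZero.ne m)
    rw [← hu] at h4 h2
    have h7 : u ^ j.val = u ^ p := Units.ext (by rw [Units.val_pow_eq_pow_val, Units.val_pow_eq_pow_val]; exact h4)
    have h6 := pow_eq_pow_iff_modEq.1 h7
    rw [← orderOf_units, ← h2.eq_orderOf] at h6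
    exact h6
  have h6 := (ZMod.natCast_eq_natCast_iff _ _ _).2 h5
  rw [ZMod.natCast_zmod_val] at h6
  exact h6

end

/-- **the density of the primes of a set of residue classes** -/
theorem ap_dens (m : ℕ) [NeZero m] (S : (ZMod m)ˣ → Prop) (T : ℕ → Prop)
    (hT : ∀ p : ℕ, p.Prime → ¬ p ∣ m → ∀ u : (ZMod m)ˣ, (u : ZMod m) = (p : ZMod m) →
      (T p ↔ S u)) :
    Tendsto (M fun p => if T p then 1 else 0) atTop
      (𝓝 ((Nat.card {u : (ZMod m)ˣ // S u} : ℝ) / (Nat.card (ZMod m)ˣ : ℝ))) := by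
  have hm : NeZero ((m : ℕ) : ℚ) := ⟨by exact_mod_cast NeZero.ne m⟩
  obtain ⟨L, i1, i2, i3, i4⟩ : ∃ (L : Type) (_ : Field L) (_ : NumberField L)
      (_ : IsCyclotomicExtension {m} ℚ L), IsGalois ℚ L :=
    ⟨CyclotomicField m ℚ, inferInstance, inferInstance, CyclotomicField.isCyclotomicExtension m ℚ,
      (CyclotomicField.isCyclotomicExtension m ℚ).isGalois⟩
  have h1 := dens_of L {g | S (ex m L g)} T m (NeZero.pos m)
    (fun p hp hpm φ g hφ => hT p hp.out hpm (ex m L g) (frob_cyc m L p hpm φ g hφ))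
  have h2 : Nat.card ({g | S (ex m L g)} : Set Gal(L/ℚ)) =
      Nat.card {u : (ZMod m)ˣ // S u} :=
    Nat.card_congr ((ex m L).toEquiv.subtypeEquiv fun g => Iff.rfl)
  have h3 : Nat.card Gal(L/ℚ) = Nat.card (ZMod m)ˣ := Nat.card_congr (ex m L).toEquiv
  rw [h2, h3] at h1
  exact h1

end Pool.Agent.U150.XG
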