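import Pool.Agent.U150.XG.Mean
import Pool.Agent.U687.Q2.Sum

/-!
# The matrix of a number, and the iterated means
-/

set_option autoImplicit false
set_option linter.unusedSectionVars false

open scoped Classical ENNReal

namespace Pool.Agent.U150.XG

open Finset Matrix Filter Topology
open Pool.Agent.U150.RG (mE)
open Pool.Agent.U687.Q2 (bord cor kc ph UU pt TT mu diag_symm bord_symm bord_diag diag_diag sum_cons
  sum_shift sum_shift1 sum_const_vec sum_const_two step I_ph S_ph)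

theorem nsq_symm {p q : ℕ} (hp : p.Prime) (hq : q.Prime) (h4 : p % 4 = 1) (h2 : q ≠ 2) :
    nsq p q = nsq q p := by
  have : Fact p.Prime := ⟨hp⟩
  have : Fact q.Prime := ⟨hq⟩
  unfold nsq
  have h := ZMod.exists_sq_eq_prime_iff_of_mod_four_eq_one (p := p) (q := q) h4 h2
  by_cases h1 : IsSquare (q : ZMod p)
  · rw [if_pos h1, if_pos (h.1 h1)]
  · rw [if_neg h1, if_neg fun h' => h1 (h.2 h')]

theorem pf_mul {D l : ℕ} (hD : D ≠ 0) (hl : l.Prime) :
    (D * l).primeFactors = insert l D.primeFactors := by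
  rw [Nat.primeFactors_mul hD hl.ne_zero, hl.primeFactors, Finset.union_comm]
  rfl

section
variable {n : ℕ} (Sp : ℕ → Prop) (θ : ℕ → ZMod 2)

/-- `P` enumerates the split prime factors of `D` -/
def En (D n : ℕ) (P : Fin n → ℕ) : Prop :=
  Function.Injective P ∧ D.primeFactors.filter Sp = Finset.univ.image P

/-- the matrix of `D` -/
noncomputable def MM (D : ℕ) {n : ℕ} (P : Fin n → ℕ) : Matrix (Fin n) (Fin n) (ZMod 2) :=
  Matrix.of fun i j =>
    if i = j then θ (P i) + ∑ l ∈ D.primeFactors.erase (P i), nsq (P i) l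
    else nsq (P i) (P j)

variable {Sp}

theorem En.mem {D : ℕ} {P : Fin n → ℕ} (h : En Sp D n P) (i : Fin n) :
    P i ∈ D.primeFactors.filter Sp := by
  rw [h.2]
  exact Finset.mem_image_of_mem P (Finset.mem_univ i)

theorem En.pf {D : ℕ} {P : Fin n → ℕ} (h : En Sp D n P) (i : Fin n) : P i ∈ D.primeFactors :=
  (Finset.mem_filter.1 (h.mem i)).1

theorem En.pr {D : ℕ} {P : Fin n → ℕ} (h : En Sp D n P) (i : Fin n) : (P i).Prime :=
  Nat.prime_of_mem_primeFactors (h.pf i)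

theorem En.sp {D : ℕ} {P : Fin n → ℕ} (h : En Sp D n P) (i : Fin n) : Sp (P i) :=
  (Finset.mem_filter.1 (h.mem i)).2

/-- the enumeration as an equivalence -/
noncomputable def En.eq {D : ℕ} {P : Fin n → ℕ} (h : En Sp D n P) :
    Fin n ≃ {x // x ∈ D.primeFactors.filter Sp} :=
  Equiv.ofBijective (fun i => ⟨P i, h.mem i⟩) (by
    constructor
    · intro i j hij
      exact h.1 (congrArg (fun x : {x // x ∈ D.primeFactors.filter Sp} => (x : ℕ)) hij)
    · rintro ⟨x, hx⟩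
      have h1 := hx
      rw [h.2] at h1
      obtain ⟨i, -, hi⟩ := Finset.mem_image.1 h1
      exact ⟨i, Subtype.ext hi⟩)

theorem En.eq_val {D : ℕ} {P : Fin n → ℕ} (h : En Sp D n P) (i : Fin n) : (h.eq i : ℕ) = P i := rfl

theorem En.card {D : ℕ} {P : Fin n → ℕ} (h : En Sp D n P) : (D.primeFactors.filter Sp).card = n := by
  rw [h.2, Finset.card_image_of_injective _ h.1, Finset.card_univ, Fintype.card_fin]

variable (Sp) in
theorem exists_en (D : ℕ) : ∃ P : Fin (D.primeFactors.filter Sp).card → ℕ,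
    En Sp D (D.primeFactors.filter Sp).card P := by
  refine ⟨fun i => ((D.primeFactors.filter Sp).equivFin.symm i : ℕ), ?_, ?_⟩
  · intro i j hij
    exact (D.primeFactors.filter Sp).equivFin.symm.injective (Subtype.ext hij)
  · ext x
    rw [Finset.mem_image]
    constructor
    · intro hx
      exact ⟨(D.primeFactors.filter Sp).equivFin ⟨x, hx⟩, Finset.mem_univ _, by
        show (((D.primeFactors.filter Sp).equivFin.symm
          ((D.primeFactors.filter Sp).equivFin ⟨x, hx⟩) : {x // x ∈ D.primeFactors.filter Sp}) : ℕ) = x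
        rw [Equiv.symm_apply_apply]⟩
    · rintro ⟨i, -, rfl⟩
      exact ((D.primeFactors.filter Sp).equivFin.symm i).2

theorem ne_of_nd {D l p : ℕ} (h : ¬ l ∣ D) (hp : p ∈ D.primeFactors) : p ≠ l := by
  rintro rfl
  exact h (Nat.dvd_of_mem_primeFactors hp)

theorem diag_sum {D l p : ℕ} (hD : D ≠ 0) (hl : l.Prime) (hlD : ¬ l ∣ D) (hp : p ∈ D.primeFactors) :
    ∑ r ∈ (D * l).primeFactors.erase p, nsq p r =
      ∑ r ∈ D.primeFactors.erase p, nsq p r + nsq p l := by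
  have hne : l ≠ p := (ne_of_nd hlD hp).symm
  rw [pf_mul hD hl, Finset.erase_insert_of_ne hne, Finset.sum_insert, add_comm]
  intro h
  exact hlD (Nat.dvd_of_mem_primeFactors (Finset.mem_erase.1 h).2)

theorem MM_symm {D : ℕ} {P : Fin n → ℕ} (h4 : ∀ i, P i % 4 = 1) (hP : ∀ i, (P i).Prime) :
    (MM θ D P).IsSymm := by
  ext i j
  rw [Matrix.transpose_apply]
  show (if j = i then _ else nsq (P j) (P i)) = if i = j then _ else nsq (P i) (P j)
  by_cases hij : i = j
  · subst hij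
    rfl
  · rw [if_neg hij, if_neg (Ne.symm hij)]
    exact nsq_symm (hP j) (hP i) (h4 j) (by have := h4 i; omega)

theorem en_inert {D l : ℕ} {P : Fin n → ℕ} (hD : D ≠ 0) (h : En Sp D n P) (hl : l.Prime)
    (hS : ¬ Sp l) : En Sp (D * l) n P := by
  refine ⟨h.1, ?_⟩
  rw [← h.2, pf_mul hD hl, Finset.filter_insert, if_neg hS]

theorem MM_inert {D l : ℕ} {P : Fin n → ℕ} (hD : D ≠ 0) (h : En Sp D n P) (hl : l.Prime)
    (hlD : ¬ l ∣ D) : MM θ (D * l) P = MM θ D P + diagonal fun i => nsq (P i) l := by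
  ext i j
  rw [Matrix.add_apply, Matrix.diagonal_apply]
  unfold MM
  rw [Matrix.of_apply, Matrix.of_apply]
  by_cases hij : i = j
  · subst hij
    rw [if_pos rfl, if_pos rfl, if_pos rfl, diag_sum hD hl hlD (h.pf i), add_assoc]
  · rw [if_neg hij, if_neg hij, if_neg hij, add_zero]

theorem en_split {D l : ℕ} {P : Fin n → ℕ} (hD : D ≠ 0) (h : En Sp D n P) (hl : l.Prime)
    (hlD : ¬ l ∣ D) (hS : Sp l) :
    En Sp (D * l) (n + 1) (Fin.cons l P : Fin (n + 1) → ℕ) := by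
  refine ⟨?_, ?_⟩
  · rw [Fin.cons_injective_iff]
    refine ⟨?_, h.1⟩
    rintro ⟨i, hi⟩
    exact ne_of_nd hlD (h.pf i) hi
  · rw [pf_mul hD hl, Finset.filter_insert, if_pos hS, h.2]
    ext x
    rw [Finset.mem_insert, Finset.mem_image, Finset.mem_image]
    constructor
    · rintro (rfl | ⟨i, -, hi⟩)
      · exact ⟨0, Finset.mem_univ _, rfl⟩
      · exact ⟨i.succ, Finset.mem_univ _, hi⟩
    · rintro ⟨i, -, rfl⟩
      refine Fin.cases ?_ (fun i => ?_) i
      · exact Or.inl rfl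
      · exact Or.inr ⟨i, Finset.mem_univ _, rfl⟩

theorem MM_split {D l : ℕ} {P : Fin n → ℕ} (hD : D ≠ 0) (h : En Sp D n P) (h2 : ∀ i, P i ≠ 2)
    (hl : l.Prime) (h4 : l % 4 = 1) (hlD : ¬ l ∣ D) :
    MM θ (D * l) (Fin.cons l P : Fin (n + 1) → ℕ) =
      bord (MM θ D P + diagonal fun i => nsq (P i) l)
        (θ l + ∑ r ∈ D.primeFactors, nsq l r) (fun i => nsq (P i) l) := by
  have hpf : l ∉ D.primeFactors := fun h => hlD (Nat.dvd_of_mem_primeFactors h)
  ext i j
  refine Fin.cases ?_ (fun i => ?_) i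
  · refine Fin.cases ?_ (fun j => ?_) j
    · unfold MM
      rw [Matrix.of_apply, if_pos rfl]
      show θ l + ∑ r ∈ (D * l).primeFactors.erase l, nsq l r =
        θ l + ∑ r ∈ D.primeFactors, nsq l r
      rw [pf_mul hD hl, Finset.erase_insert hpf]
    · unfold MM
      rw [Matrix.of_apply, if_neg (Fin.succ_ne_zero j).symm]
      show nsq l (P j) = nsq (P j) l
      exact nsq_symm hl (h.pr j) h4 (h2 j)
  · refine Fin.cases ?_ (fun j => ?_) j
    · unfold MM
      rw [Matrix.of_apply, if_neg (Fin.succ_ne_zero i)]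
      rfl
    · show (if i.succ = j.succ then
        θ (P i) + ∑ r ∈ (D * l).primeFactors.erase (P i), nsq (P i) r
        else nsq (P i) (P j)) = (MM θ D P + diagonal fun i => nsq (P i) l) i j
      rw [Matrix.add_apply, Matrix.diagonal_apply]
      unfold MM
      rw [Matrix.of_apply]
      simp only [Fin.succ_inj]
      by_cases hij : i = j
      · subst hij
        rw [if_pos rfl, if_pos rfl, if_pos rfl, diag_sum hD hl hlD (h.pf i), add_assoc]
      · rw [if_neg hij, if_neg hij, if_neg hij, add_zero]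

end

/-! ### the diagonals -/

section
variable {n : ℕ}

/-- with a random diagonal the corner does not matter -/
theorem ph_bord (G : ℕ → ℝ) (A : Matrix (Fin n) (Fin n) (ZMod 2)) (v : Fin n → ZMod 2)
    (d : ZMod 2) : ph G (bord (A + diagonal v) d v) =
      (∑ y : Fin n → ZMod 2, ∑ c : ZMod 2, G (cor (bord (A + diagonal y) c v))) / 2 ^ (n + 1) := by
  unfold ph
  congr 1
  have h1 := sum_cons (fun Y : Fin (n + 1) → ZMod 2 =>
    G (cor (bord (A + diagonal v) d v + diagonal Y)))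
  beta_reduce at h1
  rw [h1, Finset.sum_comm]
  rw [← sum_shift (fun y => ∑ c : ZMod 2, G (cor (bord (A + diagonal y) c v))) v]
  refine Finset.sum_congr rfl fun y _ => ?_
  rw [← sum_shift1 (fun c => G (cor (bord (A + diagonal (v + y)) c v))) d]
  exact Finset.sum_congr rfl fun c _ => by rw [bord_diag, diag_diag]

/-- the mean over the borders -/
theorem mean_bord (G : ℕ → ℝ) {A : Matrix (Fin n) (Fin n) (ZMod 2)} (hA : A.IsSymm) :
    (∑ v : Fin n → ZMod 2, (∑ y : Fin n → ZMod 2, ∑ c : ZMod 2,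
      G (cor (bord (A + diagonal y) c v))) / 2 ^ (n + 1)) / 2 ^ n = ph (UU G) A := by
  rw [← S_ph hA G]
  have h2 : ∀ v : Fin n → ZMod 2, ∑ d : ZMod 2, ph G (bord (A + diagonal v) d v) =
      2 * ((∑ y : Fin n → ZMod 2, ∑ c : ZMod 2, G (cor (bord (A + diagonal y) c v))) /
        2 ^ (n + 1)) := by
    intro v
    rw [Finset.sum_congr rfl fun d _ => ph_bord G A v d, sum_const_two]
  rw [Finset.sum_congr rfl fun v _ => h2 v, ← Finset.mul_sum, pow_succ]
  field_simp

theorem ph_nonneg {G : ℕ → ℝ} (hG : ∀ r, 0 ≤ G r) (A : Matrix (Fin n) (Fin n) (ZMod 2)) :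
    0 ≤ ph G A :=
  div_nonneg (Finset.sum_nonneg fun _ _ => hG _) (by positivity)

theorem UU_nonneg {G : ℕ → ℝ} (hG : ∀ r, 0 ≤ G r) (r : ℕ) : 0 ≤ UU G r := by
  unfold UU
  have h1 : (1 / 2 : ℝ) ^ r ≤ 1 := pow_le_one₀ (by norm_num) (by norm_num)
  have h2 : (0 : ℝ) ≤ (1 / 2) ^ (r + 1) := by positivity
  have h3 := mul_nonneg (by linarith : (0 : ℝ) ≤ 1 - (1 / 2) ^ r) (hG (r - 1))
  have h4 := mul_nonneg h2 (add_nonneg (hG r) (hG (r + 1)))
  linarith

theorem UUn_nonneg {G : ℕ → ℝ} (hG : ∀ r, 0 ≤ G r) (s r : ℕ) : 0 ≤ (UU^[s] G) r := by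
  induction s generalizing r with
  | zero => exact hG r
  | succ s ih =>
    rw [Function.iterate_succ_apply']
    exact UU_nonneg ih r

end

/-! ### the iterated means -/

/-- the iterated lower means -/
noncomputable def lo (C : ℕ → ℕ → Prop) (T : ℕ → ℝ≥0∞) : ℕ → ℕ → ℝ≥0∞
  | 0, D => T D
  | k + 1, D => liminf (mE (PR (C k)) (SR (C k) D) (fun l => lo C T k (D * l))) atTop

/-- the iterated upper means -/
noncomputable def up (C : ℕ → ℕ → Prop) (T : ℕ → ℝ≥0∞) : ℕ → ℕ → ℝ≥0∞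
  | 0, D => T D
  | k + 1, D => limsup (mE (PR (C k)) (SR (C k) D) (fun l => up C T k (D * l))) atTop

/-- the number of split steps -/
noncomputable def ns (τ : ℕ → Prop) (k : ℕ) : ℕ := ((Finset.range k).filter fun i => τ (i + 1)).card

theorem ns_succ (τ : ℕ → Prop) (k : ℕ) :
    ns τ (k + 1) = if τ (k + 1) then ns τ k + 1 else ns τ k := by
  unfold ns
  rw [Finset.range_add_one, Finset.filter_insert]
  by_cases h : τ (k + 1)
  · rw [if_pos h, if_pos h, Finset.card_insert_of_notMem (by simp)]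
  · rw [if_neg h, if_neg h]

/-- the data of the steps -/
structure Dat (Q : ℕ) (Sp : ℕ → Prop) (C : ℕ → ℕ → Prop) (τ : ℕ → Prop) (I : ℕ → ℕ → Prop) :
    Prop where
  q0 : 0 < Q
  sp4 : ∀ p : ℕ, p.Prime → Sp p → p % 4 = 1
  spQ : ∀ p : ℕ, p.Prime → Sp p → ¬ p ∣ Q
  cl : ∀ k, ∃ S : (ZMod Q)ˣ → Prop, (∃ u, S u) ∧
    ∀ p : ℕ, p.Prime → ¬ p ∣ Q → ∀ u : (ZMod Q)ˣ, (u : ZMod Q) = (p : ZMod Q) → (C k p ↔ S u)
  ki : ∀ k p, p.Prime → C k p → (Sp p ↔ τ k)
  t0 : ¬ τ 0
  ne : ∀ k D, I k D → D ≠ 0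
  st : ∀ k D l, I (k + 1) D → l.Prime → C k l → ¬ l ∣ D → I k (D * l)

section
variable {n Q : ℕ} {Sp : ℕ → Prop} {C : ℕ → ℕ → Prop} {τ : ℕ → Prop} {I : ℕ → ℕ → Prop}
  (θ : ℕ → ZMod 2)

theorem Dat.p2 (h : Dat Q Sp C τ I) {D : ℕ} {P : Fin n → ℕ} (hE : En Sp D n P) (i : Fin n) :
    P i ≠ 2 := by
  have := h.sp4 _ (hE.pr i) (hE.sp i)
  omega

/-- **the iterated lower means** -/
theorem lo_main (h : Dat Q Sp C τ I) (T : ℕ → ℝ≥0∞) (G : ℕ → ℝ) (hG : ∀ r, 0 ≤ G r)
    (hT : ∀ (D n : ℕ) (P : Fin n → ℕ), I 0 D → En Sp D n P →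
      ENNReal.ofReal (G (cor (MM θ D P))) ≤ T D) (k : ℕ) :
    ∀ (D n : ℕ) (P : Fin n → ℕ), I (k + 1) D → En Sp D n P →
      ENNReal.ofReal (ph (UU^[ns τ k] G) (MM θ D P)) ≤ lo C T (k + 1) D := by
  have hl := fun {n : ℕ} {D : ℕ} {P : Fin n → ℕ} (k : ℕ) (hI : D ≠ 0) (hE : En Sp D n P) =>
    law_two Q P h.q0 hE.pr hE.1 (fun i => ⟨h.p2 hE i, h.spQ _ (hE.pr i) (hE.sp i)⟩)
      (h.cl k).choose (h.cl k).choose_spec.1 (C k) (h.cl k).choose_spec.2 D
      (Nat.pos_of_ne_zero hI)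
  induction k with
  | zero =>
    intro D n P hI hE
    have hD := h.ne _ _ hI
    refine (hl 0 hD hE (fun x => G (cor (MM θ D P + diagonal x))) (fun x => hG _)
      (fun l => lo C T 0 (D * l))).1 fun l hlp hC hlD => ?_
    have hS : ¬ Sp l := fun hh => h.t0 ((h.ki 0 l hlp hC).1 hh)
    show ENNReal.ofReal (G (cor (MM θ D P + diagonal fun i => nsq (P i) l))) ≤ T (D * l)
    rw [← MM_inert θ hD hE hlp hlD]
    exact hT _ _ _ (h.st 0 D l hI hlp hC hlD) (en_inert hD hE hlp hS)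
  | succ k ih =>
    intro D n P hI hE
    have hD := h.ne _ _ hI
    rw [ns_succ]
    by_cases hτ : τ (k + 1)
    · rw [if_pos hτ, Function.iterate_succ_apply']
      have hA : (MM θ D P).IsSymm :=
        MM_symm θ (fun i => h.sp4 _ (hE.pr i) (hE.sp i)) hE.pr
      rw [← mean_bord _ hA]
      refine (hl (k + 1) hD hE (fun v => (∑ y : Fin n → ZMod 2, ∑ c : ZMod 2,
        (UU^[ns τ k] G) (cor (bord (MM θ D P + diagonal y) c v))) / 2 ^ (n + 1))
        (fun v => div_nonneg (Finset.sum_nonneg fun y _ => Finset.sum_nonneg fun c _ =>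
          UUn_nonneg hG _ _) (by positivity))
        (fun l => lo C T (k + 1) (D * l))).1 fun l hlp hC hlD => ?_
      have hS : Sp l := (h.ki _ l hlp hC).2 hτ
      have h1 := ih (D * l) (n + 1) (Fin.cons l P) (h.st _ D l hI hlp hC hlD)
        (en_split hD hE hlp hlD hS)
      rw [MM_split θ hD hE (h.p2 hE) hlp (h.sp4 _ hlp hS) hlD, ph_bord] at h1
      exact h1
    · rw [if_neg hτ]
      rw [← I_ph (MM θ D P) (UU^[ns τ k] G)]
      refine (hl (k + 1) hD hE (fun v => ph (UU^[ns τ k] G) (MM θ D P + diagonal v))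
        (fun v => ph_nonneg (UUn_nonneg hG _) _)
        (fun l => lo C T (k + 1) (D * l))).1 fun l hlp hC hlD => ?_
      have hS : ¬ Sp l := fun hh => hτ ((h.ki _ l hlp hC).1 hh)
      have h1 := ih (D * l) n P (h.st _ D l hI hlp hC hlD) (en_inert hD hE hlp hS)
      rw [MM_inert θ hD hE hlp hlD] at h1
      exact h1

/-- **the iterated upper means** -/
theorem up_main (h : Dat Q Sp C τ I) (T : ℕ → ℝ≥0∞) (G : ℕ → ℝ) (hG : ∀ r, 0 ≤ G r)
    (hT : ∀ (D n : ℕ) (P : Fin n → ℕ), I 0 D → En Sp D n P →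
      T D ≤ ENNReal.ofReal (G (cor (MM θ D P)))) (k : ℕ) :
    ∀ (D n : ℕ) (P : Fin n → ℕ), I (k + 1) D → En Sp D n P →
      up C T (k + 1) D ≤ ENNReal.ofReal (ph (UU^[ns τ k] G) (MM θ D P)) := by
  have hl := fun {n : ℕ} {D : ℕ} {P : Fin n → ℕ} (k : ℕ) (hI : D ≠ 0) (hE : En Sp D n P) =>
    law_two Q P h.q0 hE.pr hE.1 (fun i => ⟨h.p2 hE i, h.spQ _ (hE.pr i) (hE.sp i)⟩)
      (h.cl k).choose (h.cl k).choose_spec.1 (C k) (h.cl k).choose_spec.2 D
      (Nat.pos_of_ne_zero hI)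
  induction k with
  | zero =>
    intro D n P hI hE
    have hD := h.ne _ _ hI
    refine (hl 0 hD hE (fun x => G (cor (MM θ D P + diagonal x))) (fun x => hG _)
      (fun l => up C T 0 (D * l))).2 fun l hlp hC hlD => ?_
    have hS : ¬ Sp l := fun hh => h.t0 ((h.ki 0 l hlp hC).1 hh)
    show T (D * l) ≤ ENNReal.ofReal (G (cor (MM θ D P + diagonal fun i => nsq (P i) l)))
    rw [← MM_inert θ hD hE hlp hlD]
    exact hT _ _ _ (h.st 0 D l hI hlp hC hlD) (en_inert hD hE hlp hS)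
  | succ k ih =>
    intro D n P hI hE
    have hD := h.ne _ _ hI
    rw [ns_succ]
    by_cases hτ : τ (k + 1)
    · rw [if_pos hτ, Function.iterate_succ_apply']
      have hA : (MM θ D P).IsSymm :=
        MM_symm θ (fun i => h.sp4 _ (hE.pr i) (hE.sp i)) hE.pr
      rw [← mean_bord _ hA]
      refine (hl (k + 1) hD hE (fun v => (∑ y : Fin n → ZMod 2, ∑ c : ZMod 2,
        (UU^[ns τ k] G) (cor (bord (MM θ D P + diagonal y) c v))) / 2 ^ (n + 1))
        (fun v => div_nonneg (Finset.sum_nonneg fun y _ => Finset.sum_nonneg fun c _ =>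
          UUn_nonneg hG _ _) (by positivity))
        (fun l => up C T (k + 1) (D * l))).2 fun l hlp hC hlD => ?_
      have hS : Sp l := (h.ki _ l hlp hC).2 hτ
      have h1 := ih (D * l) (n + 1) (Fin.cons l P) (h.st _ D l hI hlp hC hlD)
        (en_split hD hE hlp hlD hS)
      rw [MM_split θ hD hE (h.p2 hE) hlp (h.sp4 _ hlp hS) hlD, ph_bord] at h1
      exact h1
    · rw [if_neg hτ]
      rw [← I_ph (MM θ D P) (UU^[ns τ k] G)]
      refine (hl (k + 1) hD hE (fun v => ph (UU^[ns τ k] G) (MM θ D P + diagonal v))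
        (fun v => ph_nonneg (UUn_nonneg hG _) _)
        (fun l => up C T (k + 1) (D * l))).2 fun l hlp hC hlD => ?_
      have hS : ¬ Sp l := fun hh => hτ ((h.ki _ l hlp hC).1 hh)
      have h1 := ih (D * l) n P (h.st _ D l hI hlp hC hlD) (en_inert hD hE hlp hS)
      rw [MM_inert θ hD hE hlp hlD] at h1
      exact h1

end

end Pool.Agent.U150.XG
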