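import Pool.Agent.U150.XG.Vec
import Pool.Agent.U150.RG.Abs

/-!
# Means over the primes of a class
-/

set_option autoImplicit false
set_option linter.unusedSectionVars false

open scoped Classical ENNReal

namespace Pool.Agent.U150.XG

open Finset Filter Topology
open Pool.Agent.U150.RG (mE mE_mono mE_ofReal mE_tendsto low_le le_up)

/-- the primes of the class `C` -/
def PR (C : ℕ → Prop) (X : ℕ) : Set ℕ := {l : ℕ | l.Prime ∧ C l ∧ l ≤ X}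

/-- those not dividing `D` -/
def SR (C : ℕ → Prop) (D : ℕ) (X : ℕ) : Set ℕ := {l : ℕ | l ∈ PR C X ∧ ¬ l ∣ D}

theorem PR_fin (C : ℕ → Prop) (X : ℕ) : (PR C X).Finite :=
  (Set.finite_le_nat X).subset fun _ h => h.2.2

theorem SR_sub (C : ℕ → Prop) (D X : ℕ) : SR C D X ⊆ PR C X := fun _ h => h.1

theorem PR_eq (C : ℕ → Prop) (X : ℕ) :
    PR C X = ↑((Finset.Icc 1 X).filter fun l => l.Prime ∧ C l) := by
  ext l
  rw [Finset.mem_coe, Finset.mem_filter, Finset.mem_Icc]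
  constructor
  · rintro ⟨h1, h2, h3⟩
    exact ⟨⟨h1.pos, h3⟩, h1, h2⟩
  · rintro ⟨h1, h2, h3⟩
    exact ⟨h2, h3, h1.2⟩

theorem SR_eq (C : ℕ → Prop) (D X : ℕ) :
    SR C D X = ↑((Finset.Icc 1 X).filter fun l => l.Prime ∧ (C l ∧ ¬ l ∣ D)) := by
  ext l
  rw [Finset.mem_coe, Finset.mem_filter, Finset.mem_Icc]
  constructor
  · rintro ⟨⟨h1, h2, h3⟩, h4⟩
    exact ⟨⟨h1.pos, h3⟩, h1, h2, h4⟩
  · rintro ⟨h1, h2, h3, h4⟩
    exact ⟨⟨h2, h3, h1.2⟩, h4⟩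

theorem gen_sum {β : Type} [Fintype β] (sy : ℕ → β) (F : β → ℝ) (s : Finset ℕ) :
    ∑ l ∈ s, F (sy l) = ∑ x : β, F x * ((s.filter fun l => sy l = x).card : ℝ) := by
  rw [← Finset.sum_fiberwise s sy]
  refine Finset.sum_congr rfl fun x _ => ?_
  rw [Finset.sum_congr rfl fun l hl => by rw [(Finset.mem_filter.1 hl).2], Finset.sum_const,
    nsmul_eq_mul, mul_comm]

theorem tend_gen {β : Type} [Fintype β] (C : ℕ → Prop) (D : ℕ) (sy : ℕ → β) (F : β → ℝ) (d : ℝ)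
    (hd : ∀ (x : β) (G : ℕ → Prop) (_ : ∀ l, G l ↔ ((C l ∧ ¬ l ∣ D) ∧ sy l = x)),
      Tendsto (fun X : ℕ => (((Icc 1 X).filter fun l => l.Prime ∧ G l).card : ℝ) /
        (((Icc 1 X).filter fun l => l.Prime ∧ C l).card : ℝ)) atTop (𝓝 (1 / d))) :
    Tendsto (fun X : ℕ => (∑ᶠ q ∈ SR C D X, F (sy q)) / ((PR C X).ncard : ℝ)) atTop
      (𝓝 ((∑ x, F x) / d)) := by
  obtain ⟨G, hG⟩ : ∃ G : β → ℕ → Prop, ∀ x l, G x l ↔ ((C l ∧ ¬ l ∣ D) ∧ sy l = x) :=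
    ⟨_, fun _ _ => Iff.rfl⟩
  have h2 : Tendsto (fun X : ℕ => ∑ x : β, F x *
      ((((Icc 1 X).filter fun l => l.Prime ∧ G x l).card : ℝ) /
        (((Icc 1 X).filter fun l => l.Prime ∧ C l).card : ℝ))) atTop
      (𝓝 (∑ x : β, F x * (1 / d))) :=
    tendsto_finsetSum _ fun x _ => (hd x (G x) (hG x)).const_mul (F x)
  have h3 : ∑ x : β, F x * (1 / d) = (∑ x, F x) / d := by
    rw [← Finset.sum_mul, mul_one_div]
  rw [h3] at h2
  refine h2.congr fun X => ?_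
  rw [SR_eq, PR_eq, Set.ncard_coe_finset, finsum_mem_coe_finset, gen_sum, Finset.sum_div]
  refine Finset.sum_congr rfl fun x _ => ?_
  rw [Finset.filter_filter, mul_div_assoc]
  refine congrArg (fun a : ℝ => F x * a) ?_
  refine congrArg₂ (fun a b : ℕ => (a : ℝ) / (b : ℝ)) (cf _ _ fun l => ?_) rfl
  rw [hG]
  exact and_assoc.symm

section
variable {n : ℕ} (Q : ℕ) (P : Fin n → ℕ)

/-- **lower and upper means over the primes of a class** -/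
theorem law_two (hQ : 0 < Q) (hP : ∀ i, (P i).Prime) (hinj : Function.Injective P)
    (h2 : ∀ i, P i ≠ 2 ∧ ¬ P i ∣ Q) (S : (ZMod Q)ˣ → Prop) (hS : ∃ u, S u) (C : ℕ → Prop)
    (hC : ∀ p : ℕ, p.Prime → ¬ p ∣ Q → ∀ u : (ZMod Q)ˣ, (u : ZMod Q) = (p : ZMod Q) → (C p ↔ S u))
    (D : ℕ) (hD : 0 < D) (F : (Fin n → ZMod 2) → ℝ) (hF : ∀ x, 0 ≤ F x) (T : ℕ → ℝ≥0∞) :
    ((∀ l : ℕ, l.Prime → C l → ¬ l ∣ D → ENNReal.ofReal (F fun i => nsq (P i) l) ≤ T l) →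
      ENNReal.ofReal ((∑ x, F x) / 2 ^ n) ≤ liminf (mE (PR C) (SR C D) T) atTop) ∧
    ((∀ l : ℕ, l.Prime → C l → ¬ l ∣ D → T l ≤ ENNReal.ofReal (F fun i => nsq (P i) l)) →
      limsup (mE (PR C) (SR C D) T) atTop ≤ ENNReal.ofReal ((∑ x, F x) / 2 ^ n)) := by
  have hL := tend_gen C D (fun l => fun i => nsq (P i) l) F (2 ^ n) (fun x G hG =>
    dens_vec Q P hQ hP hinj h2 S hS C hC D hD x G hG)
  constructor
  · intro h
    exact low_le (PR_fin C) (SR_sub C D) (fun q => hF _) hL fun X q hq =>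
      h q hq.1.1 hq.1.2.1 hq.2
  · intro h
    exact le_up (PR_fin C) (SR_sub C D) (fun q => hF _) hL fun X q hq =>
      h q hq.1.1 hq.1.2.1 hq.2

end

end Pool.Agent.U150.XG
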