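import Pool.Agent.U150.XG.Law

/-!
# The mean of the limit law, numerically
-/

set_option autoImplicit false

open scoped Classical

namespace Pool.Agent.U150.XG

open Finset
open Pool.Agent.U687.Q2

theorem ee_geo (m j : ℕ) : ee (j + (m + 1)) ≤ ee (m + 1) * (1 / 3) ^ j := by
  induction j with
  | zero => simp
  | succ j ih =>
    have h := ee_third (j + m)
    have e1 : j + 1 + (m + 1) = j + m + 2 := by ring
    have e2 : j + (m + 1) = j + m + 1 := by ring
    rw [e1, pow_succ]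
    rw [e2] at ih
    linarith

theorem ee_tail (m : ℕ) : ∑' j : ℕ, ee (j + (m + 1)) ≤ ee (m + 1) * (3 / 2) := by
  have h1 : Summable fun j : ℕ => ee (m + 1) * (1 / 3 : ℝ) ^ j :=
    (summable_geometric_of_lt_one (by norm_num) (by norm_num)).mul_left _
  have h2 : Summable fun j : ℕ => ee (j + (m + 1)) := (summable_nat_add_iff (m + 1)).2 ee_summable
  refine (h2.tsum_le_tsum (ee_geo m) h1).trans ?_
  rw [tsum_mul_left, tsum_geometric_of_lt_one (by norm_num) (by norm_num)]
  norm_num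

theorem ee_values : ee 0 = 1 ∧ ee 1 = 1 ∧ ee 2 = 1 / 3 ∧ ee 3 = 1 / 21 ∧ ee 4 = 1 / 315 ∧
    ee 5 = 1 / 9765 ∧ ee 6 = 1 / 615195 := by
  have h0 := ee_zero
  have h1 := ee_succ 0
  have h2 := ee_succ 1
  have h3 := ee_succ 2
  have h4 := ee_succ 3
  have h5 := ee_succ 4
  have h6 := ee_succ 5
  norm_num at h1 h2 h3 h4 h5 h6
  refine ⟨h0, ?_, ?_, ?_, ?_, ?_, ?_⟩ <;> linarith

/-- **the mean of the limit law** -/
theorem kappa_num : kappa ≤ 0.7649 := by
  have h := kappa_le 6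
  have ht := ee_tail 5
  obtain ⟨e0, e1, e2, e3, e4, e5, e6⟩ := ee_values
  obtain ⟨-, -, -, h1, h2⟩ := lim2_facts
  rw [e6] at ht
  have hs : ∑ j ∈ Finset.range 6, (1 - ∑ r ∈ Finset.range (j + 1), prob r) =
      6 - lim2 * (1 + 2 + 7 / 3 + 50 / 21 + 751 / 315 + (751 / 315 + 1 / 9765)) := by
    unfold prob
    simp only [Finset.sum_range_succ, Finset.sum_range_zero, zero_add, e0, e1, e2, e3, e4, e5]
    ring
  rw [hs] at h
  norm_num at h ht
  linarith

end Pool.Agent.U150.XG
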