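import Pool.Agent.U150.XG.Ap

/-!
# The joint law of quadratic symbols in residue classes
-/

set_option autoImplicit false
set_option linter.unusedSectionVars false

open scoped Classical

namespace Pool.Agent.U150.XG

open Finset Filter Topology
open Pool.Agent.W401.Cheb (M pr mem_pr M_congr card_fib)

/-- `1` if `m` is not a square modulo `p`, and `0` if it is -/
noncomputable def nsq (p m : ℕ) : ZMod 2 := if IsSquare (m : ZMod p) then 0 else 1

/-- the symbol of a unit -/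
noncomputable def nsu (p : ℕ) (u : (ZMod p)ˣ) : ZMod 2 := if IsSquare (u : ZMod p) then 0 else 1

theorem nsu_mul (p : ℕ) [Fact p.Prime] (u v : (ZMod p)ˣ) :
    nsu p (u * v) = nsu p u + nsu p v := by
  have h1 : ∀ w : (ZMod p)ˣ, IsSquare (w : ZMod p) ↔ quadraticChar (ZMod p) (w : ZMod p) = 1 :=
    fun w => (quadraticChar_one_iff_isSquare w.ne_zero).symm
  have h2 : ∀ w : (ZMod p)ˣ, quadraticChar (ZMod p) (w : ZMod p) = 1 ∨
      quadraticChar (ZMod p) (w : ZMod p) = -1 := fun w => quadraticChar_dichotomy w.ne_zero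
  have h3 : quadraticChar (ZMod p) ((u * v : (ZMod p)ˣ) : ZMod p) =
      quadraticChar (ZMod p) (u : ZMod p) * quadraticChar (ZMod p) (v : ZMod p) := by
    rw [Units.val_mul, map_mul]
  have e2 : (1 : ZMod 2) + 1 = 0 := by decide
  have hne : (-1 : ℤ) ≠ 1 := by norm_num
  unfold nsu
  rw [h1, h1, h1, h3]
  rcases h2 u with hu | hu <;> rcases h2 v with hv | hv <;> rw [hu, hv]
  · norm_num
  · rw [if_neg (by norm_num), if_pos rfl, if_neg hne, zero_add]
  · rw [if_neg (by norm_num), if_neg hne, if_pos rfl, add_zero]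
  · rw [if_pos (by norm_num), if_neg hne, e2]

theorem nsu_one (p : ℕ) : nsu p 1 = 0 := by
  unfold nsu
  rw [if_pos ⟨1, by simp⟩]

section
variable {n : ℕ} (Q : ℕ) (P : Fin n → ℕ)

/-- the modulus -/
def md : ℕ := Q * ∏ i, P i

theorem dQ : Q ∣ md Q P := Dvd.intro _ rfl

theorem dP (i : Fin n) : P i ∣ md Q P :=
  (Finset.dvd_prod_of_mem P (Finset.mem_univ i)).mul_left Q

/-- the class and the symbols -/
noncomputable def hom (hP : ∀ i, (P i).Prime) :
    (ZMod (md Q P))ˣ →* (ZMod Q)ˣ × Multiplicative (Fin n → ZMod 2) where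
  toFun u := (ZMod.unitsMap (dQ Q P) u,
    Multiplicative.ofAdd fun i => nsu (P i) (ZMod.unitsMap (dP Q P i) u))
  map_one' := by
    refine Prod.ext (map_one _) ?_
    show Multiplicative.ofAdd (fun i => nsu (P i) (ZMod.unitsMap (dP Q P i) 1)) = 1
    rw [← ofAdd_zero]
    congr 1
    funext i
    rw [map_one, nsu_one]
    rfl
  map_mul' u v := by
    refine Prod.ext (map_mul _ _ _) ?_
    show Multiplicative.ofAdd (fun i => nsu (P i) (ZMod.unitsMap (dP Q P i) (u * v))) =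
      Multiplicative.ofAdd (fun i => nsu (P i) (ZMod.unitsMap (dP Q P i) u)) *
      Multiplicative.ofAdd (fun i => nsu (P i) (ZMod.unitsMap (dP Q P i) v))
    rw [← ofAdd_add]
    congr 1
    funext i
    have : Fact (P i).Prime := ⟨hP i⟩
    rw [map_mul, nsu_mul]
    rfl

theorem exists_sym (p : ℕ) (hp : p.Prime) (h2 : p ≠ 2) (x : ZMod 2) :
    ∃ t : ℕ, t.Coprime p ∧ nsq p t = x := by
  have : Fact p.Prime := ⟨hp⟩
  have hx : x = 0 ∨ x = 1 := by
    revert x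
    decide
  rcases hx with rfl | rfl
  · refine ⟨1, Nat.coprime_one_left p, ?_⟩
    unfold nsq
    rw [if_pos ⟨1, by simp⟩]
  · obtain ⟨a, ha⟩ := FiniteField.exists_nonsquare (F := ZMod p) (by rwa [ZMod.ringChar_zmod_n])
    refine ⟨a.val, ?_, ?_⟩
    · rw [← ZMod.isUnit_iff_coprime, ZMod.natCast_zmod_val]
      rw [isUnit_iff_ne_zero]
      rintro rfl
      exact ha ⟨0, by simp⟩
    · unfold nsq
      rw [ZMod.natCast_zmod_val, if_neg ha]

theorem um_nat {m k l : ℕ} (h : l ∣ m) (u : (ZMod m)ˣ) (hu : (u : ZMod m) = (k : ZMod m)) :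
    ((ZMod.unitsMap h u : (ZMod l)ˣ) : ZMod l) = (k : ZMod l) := by
  rw [ZMod.unitsMap_val, hu]
  exact ZMod.cast_natCast h k

theorem hom_surj (hQ : 0 < Q) (hP : ∀ i, (P i).Prime) (hinj : Function.Injective P)
    (h2 : ∀ i, P i ≠ 2 ∧ ¬ P i ∣ Q) : Function.Surjective (hom Q P hP) := by
  rintro ⟨c, x⟩
  choose t ht1 ht2 using fun i => exists_sym (P i) (hP i) (h2 i).1 (Multiplicative.toAdd x i)
  have : NeZero Q := ⟨hQ.ne'⟩
  set a : Option (Fin n) → ℕ := fun j => j.elim (c : ZMod Q).val t with ha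
  set s : Option (Fin n) → ℕ := fun j => j.elim Q P with hs
  have hs0 : ∀ j ∈ (Finset.univ : Finset (Option (Fin n))), s j ≠ 0 := by
    intro j _
    rcases j with _ | i
    · exact hQ.ne'
    · exact (hP i).ne_zero
  have hco : Set.Pairwise (↑(Finset.univ : Finset (Option (Fin n))) : Set (Option (Fin n)))
      (Function.onFun Nat.Coprime s) := by
    intro j _ k _ hjk
    rcases j with _ | i <;> rcases k with _ | l
    · exact absurd rfl hjk
    · exact ((hP l).coprime_iff_not_dvd.2 (h2 l).2).symm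
    · exact (hP i).coprime_iff_not_dvd.2 (h2 i).2
    · refine (Nat.coprime_primes (hP i) (hP l)).2 fun h => hjk ?_
      rw [hinj h]
  obtain ⟨k, hk⟩ := Nat.chineseRemainderOfFinset a s Finset.univ hs0 hco
  have hkQ : (k : ZMod Q) = (c : ZMod Q) := by
    have h1 := hk none (Finset.mem_univ _)
    have h3 := (ZMod.natCast_eq_natCast_iff _ _ _).2 h1
    have h4 : ((a none : ℕ) : ZMod Q) = c := ZMod.natCast_zmod_val _
    rw [← h4]
    exact h3
  have hkP : ∀ i, (k : ZMod (P i)) = (t i : ZMod (P i)) := fun i =>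
    (ZMod.natCast_eq_natCast_iff _ _ _).2 (hk (some i) (Finset.mem_univ _))
  have hcop : k.Coprime (md Q P) := by
    refine Nat.Coprime.mul_right ?_ (Nat.Coprime.prod_right fun i _ => ?_)
    · rw [← ZMod.isUnit_iff_coprime, hkQ]
      exact c.isUnit
    · rw [← ZMod.isUnit_iff_coprime, hkP i, ZMod.isUnit_iff_coprime]
      exact ht1 i
  refine ⟨ZMod.unitOfCoprime k hcop, ?_⟩
  have hu := ZMod.coe_unitOfCoprime k hcop
  refine Prod.ext (Units.ext ?_) ?_
  · show ((ZMod.unitsMap (dQ Q P) (ZMod.unitOfCoprime k hcop) : (ZMod Q)ˣ) : ZMod Q) = c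
    rw [um_nat (dQ Q P) _ hu, hkQ]
  · show Multiplicative.ofAdd (fun i => nsu (P i) (ZMod.unitsMap (dP Q P i)
      (ZMod.unitOfCoprime k hcop))) = x
    rw [← ofAdd_toAdd x]
    congr 1
    funext i
    rw [← ht2 i]
    unfold nsu nsq
    rw [um_nat (dP Q P i) _ hu, hkP i]

theorem sum_one (C : ℕ → Prop) [DecidablePred C] (X : ℕ) : ∑ p ∈ pr X, (if C p then (1 : ℝ) else 0) =
    (((Icc 1 X).filter fun l => l.Prime ∧ C l).card : ℝ) := by
  rw [← Finset.sum_filter, Finset.sum_const, nsmul_eq_mul, mul_one]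
  congr 2
  ext l
  rw [Finset.mem_filter, Finset.mem_filter, mem_pr, Finset.mem_Icc]
  constructor
  · rintro ⟨⟨h1, h2⟩, h3⟩
    exact ⟨⟨h2.pos, h1⟩, h2, h3⟩
  · rintro ⟨⟨h1, h2⟩, h3, h4⟩
    exact ⟨⟨h2, h3⟩, h4⟩

theorem ratio_lim {C C' : ℕ → Prop} {a b : ℝ} (hb : b ≠ 0)
    (h1 : Tendsto (M fun p => if C p then (1 : ℝ) else 0) atTop (𝓝 a))
    (h0 : Tendsto (M fun p => if C' p then (1 : ℝ) else 0) atTop (𝓝 b)) :
    Tendsto (fun X : ℕ => (((Icc 1 X).filter fun l => l.Prime ∧ C l).card : ℝ) /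
      (((Icc 1 X).filter fun l => l.Prime ∧ C' l).card : ℝ)) atTop (𝓝 (a / b)) := by
  refine (h1.div h0 hb).congr' ?_
  filter_upwards [eventually_ge_atTop 2] with X hX
  have hpc : (Nat.primeCounting X : ℝ) ≠ 0 := by
    have : 0 < Nat.primeCounting X := by
      have h := Nat.monotone_primeCounting hX
      have h2 : Nat.primeCounting 2 = 1 := by decide
      omega
    positivity
  show M _ X / M _ X = _
  unfold M
  rw [div_div_div_cancel_right₀ hpc]
  exact congrArg₂ (· / ·) (sum_one C X) (sum_one C' X)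

theorem cf {s : Finset ℕ} {p q : ℕ → Prop} (ip : DecidablePred p) (iq : DecidablePred q)
    (h : ∀ l, p l ↔ q l) : (@Finset.filter _ p ip s).card = (@Finset.filter _ q iq s).card := by
  congr 1
  ext l
  simp only [Finset.mem_filter, h l]

theorem key_vec (hP : ∀ i, (P i).Prime) (S : (ZMod Q)ˣ → Prop) (C : ℕ → Prop)
    (hC : ∀ p : ℕ, p.Prime → ¬ p ∣ Q → ∀ u : (ZMod Q)ˣ, (u : ZMod Q) = (p : ZMod Q) → (C p ↔ S u))
    (p : ℕ) (hp : p.Prime) (hpm : ¬ p ∣ md Q P) (u : (ZMod (md Q P))ˣ)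
    (hu : (u : ZMod (md Q P)) = (p : ZMod (md Q P))) :
    (C p ↔ S (hom Q P hP u).1) ∧
      Multiplicative.toAdd (hom Q P hP u).2 = fun i => nsq (P i) p := by
  have e1 : (hom Q P hP u).1 = ZMod.unitsMap (dQ Q P) u := rfl
  have e2 : Multiplicative.toAdd (hom Q P hP u).2 =
      fun i => nsu (P i) (ZMod.unitsMap (dP Q P i) u) := rfl
  rw [e1, e2]
  refine ⟨hC p hp (fun h => hpm (h.trans (dQ Q P))) _ (um_nat (dQ Q P) u hu), ?_⟩
  funext i
  unfold nsu nsq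
  rw [um_nat (dP Q P i) u hu]

theorem count1 (hQ : 0 < Q) (hP : ∀ i, (P i).Prime) (hinj : Function.Injective P)
    (h2 : ∀ i, P i ≠ 2 ∧ ¬ P i ∣ Q) (S : (ZMod Q)ˣ → Prop) (x : Fin n → ZMod 2) :
    Nat.card {u : (ZMod (md Q P))ˣ // S (hom Q P hP u).1 ∧
      Multiplicative.toAdd (hom Q P hP u).2 = x} =
      Nat.card (hom Q P hP).ker * Nat.card {c : (ZMod Q)ˣ // S c} := by
  have c1 := card_fib (hom Q P hP) (fun b => S b.1 ∧ Multiplicative.toAdd b.2 = x)
    (fun b _ => hom_surj Q P hQ hP hinj h2 b)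
  have e1 : Nat.card {b : (ZMod Q)ˣ × Multiplicative (Fin n → ZMod 2) //
      S b.1 ∧ Multiplicative.toAdd b.2 = x} = Nat.card {c : (ZMod Q)ˣ // S c} :=
    Nat.card_congr
      { toFun := fun b => ⟨b.1.1, b.2.1⟩
        invFun := fun c => ⟨(c.1, Multiplicative.ofAdd x), c.2, rfl⟩
        left_inv := fun b => Subtype.ext (Prod.ext rfl b.2.2.symm)
        right_inv := fun c => rfl }
  rw [e1] at c1
  exact c1

theorem count0 (hQ : 0 < Q) (hP : ∀ i, (P i).Prime) (hinj : Function.Injective P)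
    (h2 : ∀ i, P i ≠ 2 ∧ ¬ P i ∣ Q) (S : (ZMod Q)ˣ → Prop) :
    Nat.card {u : (ZMod (md Q P))ˣ // S (hom Q P hP u).1} =
      Nat.card (hom Q P hP).ker * (Nat.card {c : (ZMod Q)ˣ // S c} * 2 ^ n) := by
  have c0 := card_fib (hom Q P hP) (fun b => S b.1) (fun b _ => hom_surj Q P hQ hP hinj h2 b)
  have e0 : Nat.card {b : (ZMod Q)ˣ × Multiplicative (Fin n → ZMod 2) // S b.1} =
      Nat.card {c : (ZMod Q)ˣ // S c} * 2 ^ n := by
    have h3 : Nat.card (Multiplicative (Fin n → ZMod 2)) = 2 ^ n := by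
      rw [Nat.card_congr (Multiplicative.toAdd (α := Fin n → ZMod 2)), Nat.card_fun]
      simp
    rw [← h3, ← Nat.card_prod]
    exact Nat.card_congr
      { toFun := fun b => (⟨b.1.1, b.2⟩, b.1.2)
        invFun := fun c => ⟨(c.1.1, c.2), c.1.2⟩
        left_inv := fun b => rfl
        right_inv := fun c => rfl }
  rw [e0] at c0
  exact c0

/-- the densities -/
theorem dens_two (hQ : 0 < Q) (hP : ∀ i, (P i).Prime) (hinj : Function.Injective P)
    (h2 : ∀ i, P i ≠ 2 ∧ ¬ P i ∣ Q) (S : (ZMod Q)ˣ → Prop) (hS : ∃ u, S u) (C : ℕ → Prop)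
    (hC : ∀ p : ℕ, p.Prime → ¬ p ∣ Q → ∀ u : (ZMod Q)ˣ, (u : ZMod Q) = (p : ZMod Q) →
      (C p ↔ S u)) :
    ∃ a : ℝ, 0 < a ∧ Tendsto (M fun p => if C p then (1 : ℝ) else 0) atTop (𝓝 (a * 2 ^ n)) ∧
      ∀ (x : Fin n → ZMod 2) (N : ℕ) (_ : 0 < N) (G : ℕ → Prop)
        (_ : ∀ l, G l ↔ ((C l ∧ ¬ l ∣ N) ∧ (fun i => nsq (P i) l) = x)),
        Tendsto (M fun p => if G p then (1 : ℝ) else 0) atTop (𝓝 a) := by
  have hQ' : NeZero Q := ⟨hQ.ne'⟩
  have hm : NeZero (md Q P) :=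
    ⟨mul_ne_zero hQ.ne' (Finset.prod_ne_zero_iff.2 fun i _ => (hP i).ne_zero)⟩
  have hk : (0 : ℝ) < (Nat.card (hom Q P hP).ker : ℝ) := Nat.cast_pos.2 Nat.card_pos
  have hc : (0 : ℝ) < (Nat.card {c : (ZMod Q)ˣ // S c} : ℝ) := by
    obtain ⟨u, hu⟩ := hS
    have : Nonempty {c : (ZMod Q)ˣ // S c} := ⟨⟨u, hu⟩⟩
    exact Nat.cast_pos.2 Nat.card_pos
  have hm' : (0 : ℝ) < (Nat.card (ZMod (md Q P))ˣ : ℝ) := Nat.cast_pos.2 Nat.card_pos
  have hd0 := ap_dens (md Q P) (fun u => S (hom Q P hP u).1) C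
      (fun p hp hpm u hu => (key_vec Q P hP S C hC p hp hpm u hu).1)
  rw [count0 Q P hQ hP hinj h2 S, Nat.cast_mul, Nat.cast_mul, Nat.cast_pow, Nat.cast_ofNat] at hd0
  have hd1 : ∀ (x : Fin n → ZMod 2) (N : ℕ) (_ : 0 < N) (G : ℕ → Prop)
        (_ : ∀ l, G l ↔ ((C l ∧ ¬ l ∣ N) ∧ (fun i => nsq (P i) l) = x)),
        Tendsto (M fun p => if G p then (1 : ℝ) else 0) atTop
        (𝓝 ((Nat.card (hom Q P hP).ker : ℝ) * (Nat.card {c : (ZMod Q)ˣ // S c} : ℝ) /
    (Nat.card (ZMod (md Q P))ˣ : ℝ))) := by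
    intro x N hN G hG
    have d1 := ap_dens (md Q P)
      (fun u => S (hom Q P hP u).1 ∧ Multiplicative.toAdd (hom Q P hP u).2 = x)
      (fun p => C p ∧ (fun i => nsq (P i) p) = x) (fun p hp hpm u hu => by
        obtain ⟨k1, k2⟩ := key_vec Q P hP S C hC p hp hpm u hu
        rw [k1, k2])
    rw [count1 Q P hQ hP hinj h2 S x, Nat.cast_mul] at d1
    refine M_congr hN (fun p _ hpN => ?_) d1
    have this : G p ↔ (C p ∧ (fun i => nsq (P i) p) = x) := by
      rw [hG p]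
      exact ⟨fun h => ⟨h.1.1, h.2⟩, fun h => ⟨⟨h.1, hpN⟩, h.2⟩⟩
    by_cases h : G p
    · rw [if_pos h, if_pos (this.1 h)]
    · rw [if_neg h, if_neg (fun h' => h (this.2 h'))]
  generalize (Nat.card (hom Q P hP).ker : ℝ) = k at *
  generalize (Nat.card {c : (ZMod Q)ˣ // S c} : ℝ) = s at *
  generalize (Nat.card (ZMod (md Q P))ˣ : ℝ) = m at *
  have e : k * (s * 2 ^ n) / m = k * s / m * 2 ^ n := by ring
  rw [e] at hd0
  exact ⟨k * s / m, div_pos (mul_pos hk hc) hm', hd0, hd1⟩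

/-- **the joint law of the symbols** -/
theorem dens_vec (hQ : 0 < Q) (hP : ∀ i, (P i).Prime) (hinj : Function.Injective P)
    (h2 : ∀ i, P i ≠ 2 ∧ ¬ P i ∣ Q) (S : (ZMod Q)ˣ → Prop) (hS : ∃ u, S u) (C : ℕ → Prop)
    (hC : ∀ p : ℕ, p.Prime → ¬ p ∣ Q → ∀ u : (ZMod Q)ˣ, (u : ZMod Q) = (p : ZMod Q) → (C p ↔ S u))
    (N : ℕ) (hN : 0 < N) (x : Fin n → ZMod 2) (G : ℕ → Prop)
    (hG : ∀ l, G l ↔ ((C l ∧ ¬ l ∣ N) ∧ (fun i => nsq (P i) l) = x)) :
    Tendsto (fun X : ℕ => (((Icc 1 X).filter fun l => l.Prime ∧ G l).card : ℝ) /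
        (((Icc 1 X).filter fun l => l.Prime ∧ C l).card : ℝ)) atTop (𝓝 (1 / 2 ^ n)) := by
  obtain ⟨a, ha, d0, d1⟩ := dens_two Q P hQ hP hinj h2 S hS C hC
  have h := ratio_lim (mul_pos ha (pow_pos two_pos n)).ne' (d1 x N hN G hG) d0
  have e : a / (a * 2 ^ n) = 1 / 2 ^ n := by field_simp
  rw [e] at h
  exact h

end

end Pool.Agent.U150.XG
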